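import Pool.Agent.Lib.MP_564bf3_an.Laplace

/-!
# Bounds for products of resolvents
-/

open Complex Filter Set
open scoped Topology

noncomputable section

namespace Pool.Agent.MP_564bf3_an

variable {M : Type*} [TopologicalSpace M] [CompactSpace M]

/-- Exponential bounds for a functional. -/
def ExpBd (Θ : C(M, ℂ) →L[ℂ] ℂ) (X₁ X₂ : C(M, ℂ)) (κ ε C : ℝ) : Prop :=
  ∀ s : ℝ, 0 ≤ s → ∀ l₁ l₂ : ℂ, 0 ≤ l₁.re → 0 ≤ l₂.re →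
    ‖Θ (NormedSpace.exp (((s : ℂ) + l₁) • X₁ + ((s : ℂ) + l₂) • X₂))‖ ≤
      C * Real.exp (κ * s + (l₁.re + ε * ‖l₁‖) + (l₂.re + ε * ‖l₂‖))

theorem ExpBd.swap {Θ : C(M, ℂ) →L[ℂ] ℂ} {X₁ X₂ : C(M, ℂ)} {κ ε C : ℝ}
    (h : ExpBd Θ X₁ X₂ κ ε C) : ExpBd Θ X₂ X₁ κ ε C := by
  intro s hs l₁ l₂ h1 h2
  have := h s hs l₂ l₁ h2 h1
  rw [add_comm] at this
  refine this.trans (le_of_eq ?_)
  ring_nf

/-- A point `w` which is separated from the values of `X` in one of the admissible directions. -/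
def Sep (X : C(M, ℂ)) (ρ : ℝ) (w : ℂ) : Prop :=
  ∃ ω : ℂ, ‖ω‖ = 1 ∧ 0 ≤ ω.re ∧ ω.re + ρ ≤ (ω * w).re ∧ ∀ x, (ω * X x).re ≤ ω.re + ρ / 2

theorem bound_one {Θ : C(M, ℂ) →L[ℂ] ℂ} {X₁ X₂ : C(M, ℂ)} {κ ε C ρ : ℝ}
    (h : ExpBd Θ X₁ X₂ κ ε C) (hC : 0 ≤ C) (hρ : 0 < ρ) (hε : ε ≤ ρ / 2) {w : ℂ}
    (hw : Sep X₁ ρ w) {u : C(M, ℂ)} (hu : ∀ x, (w - X₁ x) * u x = 1) {s : ℝ} (hs : 0 ≤ s)
    {l : ℂ} (hl : 0 ≤ l.re) :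
    ‖Θ (NormedSpace.exp ((s : ℂ) • X₁ + ((s : ℂ) + l) • X₂) * u)‖ ≤
      2 / ρ * C * Real.exp (κ * s + (l.re + ε * ‖l‖)) := by
  obtain ⟨ω, hω, hω0, hw1, hw2⟩ := hw
  set D := C * Real.exp (κ * s + (l.re + ε * ‖l‖)) with hD
  have hD0 : 0 ≤ D := by positivity
  set Ψ : C(M, ℂ) →L[ℂ] ℂ := Θ.comp (ContinuousLinearMap.mul ℂ C(M, ℂ)
    (NormedSpace.exp ((s : ℂ) • X₁ + ((s : ℂ) + l) • X₂))) with hΨ
  have h1 := laplace Ψ X₁ u w ω hu hω.le (D := D) (b := ω.re + ε) (β := ω.re + ρ / 2) hD0 ?_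
    (by linarith) hw2 (by linarith)
  · have h2 : Ψ u = Θ (NormedSpace.exp ((s : ℂ) • X₁ + ((s : ℂ) + l) • X₂) * u) := rfl
    rw [← h2]
    refine h1.trans ?_
    have h3 : ρ / 2 ≤ (ω * w).re - (ω.re + ε) := by linarith
    calc D / ((ω * w).re - (ω.re + ε)) ≤ D / (ρ / 2) :=
          div_le_div_of_nonneg_left hD0 (by positivity) h3
      _ = _ := by rw [hD]; field_simp
  · intro t ht
    have h2 : Ψ (NormedSpace.exp ((t * ω) • X₁)) =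
        Θ (NormedSpace.exp (((s : ℂ) + t * ω) • X₁ + ((s : ℂ) + l) • X₂)) := by
      have h3 : NormedSpace.exp (((s : ℂ) + t * ω) • X₁ + ((s : ℂ) + l) • X₂) =
          NormedSpace.exp ((s : ℂ) • X₁ + ((s : ℂ) + l) • X₂) *
            NormedSpace.exp ((t * ω) • X₁) := by
        rw [← NormedSpace.exp_add]
        congr 1
        module
      rw [h3]
      rfl
    rw [h2]
    have h4 := h s hs (t * ω) l (by rw [re_ofReal_mul]; positivity) hl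
    refine h4.trans (le_of_eq ?_)
    rw [hD, mul_assoc, ← Real.exp_add, re_ofReal_mul, norm_mul, hω, norm_real,
      Real.norm_of_nonneg ht]
    ring_nf

theorem bound_two {Θ : C(M, ℂ) →L[ℂ] ℂ} {X₁ X₂ : C(M, ℂ)} {κ ε C ρ : ℝ}
    (h : ExpBd Θ X₁ X₂ κ ε C) (hC : 0 ≤ C) (hρ : 0 < ρ) (hε : ε ≤ ρ / 2) {w₁ w₂ : ℂ}
    (hw₁ : Sep X₁ ρ w₁) (hw₂ : Sep X₂ ρ w₂) {u₁ u₂ : C(M, ℂ)}
    (hu₁ : ∀ x, (w₁ - X₁ x) * u₁ x = 1) (hu₂ : ∀ x, (w₂ - X₂ x) * u₂ x = 1)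
    {s : ℝ} (hs : 0 ≤ s) :
    ‖Θ (NormedSpace.exp ((s : ℂ) • X₁ + (s : ℂ) • X₂) * (u₁ * u₂))‖ ≤
      2 / ρ * (2 / ρ * C) * Real.exp (κ * s) := by
  obtain ⟨ω, hω, hω0, hw1, hw2⟩ := hw₂
  set D := 2 / ρ * C * Real.exp (κ * s) with hD
  have hD0 : 0 ≤ D := by positivity
  set Ψ : C(M, ℂ) →L[ℂ] ℂ := Θ.comp (ContinuousLinearMap.mul ℂ C(M, ℂ)
    (NormedSpace.exp ((s : ℂ) • X₁ + (s : ℂ) • X₂) * u₁)) with hΨ
  have h1 := laplace Ψ X₂ u₂ w₂ ω hu₂ hω.le (D := D) (b := ω.re + ε) (β := ω.re + ρ / 2) hD0 ?_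
    (by linarith) hw2 (by linarith)
  · have h2 : Ψ u₂ = Θ (NormedSpace.exp ((s : ℂ) • X₁ + (s : ℂ) • X₂) * (u₁ * u₂)) := by
      rw [← mul_assoc]; rfl
    rw [← h2]
    refine h1.trans ?_
    have h3 : ρ / 2 ≤ (ω * w₂).re - (ω.re + ε) := by linarith
    calc D / ((ω * w₂).re - (ω.re + ε)) ≤ D / (ρ / 2) :=
          div_le_div_of_nonneg_left hD0 (by positivity) h3
      _ = _ := by rw [hD]; field_simp
  · intro t ht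
    have h2 : Ψ (NormedSpace.exp ((t * ω) • X₂)) =
        Θ (NormedSpace.exp ((s : ℂ) • X₁ + ((s : ℂ) + t * ω) • X₂) * u₁) := by
      have h3 : NormedSpace.exp ((s : ℂ) • X₁ + ((s : ℂ) + t * ω) • X₂) =
          NormedSpace.exp ((s : ℂ) • X₁ + (s : ℂ) • X₂) *
            NormedSpace.exp ((t * ω) • X₂) := by
        rw [← NormedSpace.exp_add]
        congr 1
        module
      rw [h3, mul_right_comm]
      rfl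
    rw [h2]
    have h4 := bound_one h hC hρ hε hw₁ hu₁ hs (l := t * ω) (by rw [re_ofReal_mul]; positivity)
    refine h4.trans (le_of_eq ?_)
    rw [hD, mul_assoc _ (Real.exp (κ * s)), ← Real.exp_add, re_ofReal_mul, norm_mul, hω,
      norm_real, Real.norm_of_nonneg ht]
    ring_nf

theorem bound_fst {Θ : C(M, ℂ) →L[ℂ] ℂ} {X₁ X₂ : C(M, ℂ)} {κ ε C ρ : ℝ}
    (h : ExpBd Θ X₁ X₂ κ ε C) (hC : 0 ≤ C) (hρ : 0 < ρ) (hε : ε ≤ ρ / 2) {w : ℂ}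
    (hw : Sep X₁ ρ w) {u : C(M, ℂ)} (hu : ∀ x, (w - X₁ x) * u x = 1) {s : ℝ} (hs : 0 ≤ s) :
    ‖Θ (NormedSpace.exp ((s : ℂ) • X₁ + (s : ℂ) • X₂) * u)‖ ≤
      2 / ρ * C * Real.exp (κ * s) := by
  simpa using bound_one h hC hρ hε hw hu hs (l := 0) (by simp)

theorem bound_snd {Θ : C(M, ℂ) →L[ℂ] ℂ} {X₁ X₂ : C(M, ℂ)} {κ ε C ρ : ℝ}
    (h : ExpBd Θ X₁ X₂ κ ε C) (hC : 0 ≤ C) (hρ : 0 < ρ) (hε : ε ≤ ρ / 2) {w : ℂ}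
    (hw : Sep X₂ ρ w) {u : C(M, ℂ)} (hu : ∀ x, (w - X₂ x) * u x = 1) {s : ℝ} (hs : 0 ≤ s) :
    ‖Θ (NormedSpace.exp ((s : ℂ) • X₁ + (s : ℂ) • X₂) * u)‖ ≤
      2 / ρ * C * Real.exp (κ * s) := by
  rw [add_comm]
  exact bound_fst h.swap hC hρ hε hw hu hs

end Pool.Agent.MP_564bf3_an
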