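import Mathlib

/-!
# Polygonal contours with three sides
-/

open Complex Filter Set MeasureTheory
open scoped Topology

noncomputable section

namespace Pool.Agent.MP_564bf3_an

/-- The parameter space of a polygonal contour with three sides. -/
abbrev YY : Type := Fin 3 × unitInterval

/-- The natural measure on the parameter space. -/
def muY : Measure YY := (Measure.count : Measure (Fin 3)).prod (volume : Measure unitInterval)

instance : IsFiniteMeasure muY := by unfold muY; infer_instance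

/-- The contour with sides from `p k` to `q k`. -/
def gam (p q : Fin 3 → ℂ) : C(YY, ℂ) where
  toFun y := p y.1 + (y.2 : ℝ) * (q y.1 - p y.1)
  continuous_toFun := by
    have hp : Continuous fun y : YY => p y.1 := continuous_of_discreteTopology.comp continuous_fst
    have hq : Continuous fun y : YY => q y.1 := continuous_of_discreteTopology.comp continuous_fst
    have ht : Continuous fun y : YY => ((y.2 : ℝ) : ℂ) := by fun_prop
    exact hp.add (ht.mul (hq.sub hp))

/-- The velocity of the contour with sides from `p k` to `q k`. -/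
def dir (p q : Fin 3 → ℂ) : C(YY, ℂ) where
  toFun y := q y.1 - p y.1
  continuous_toFun := by
    have hp : Continuous fun y : YY => p y.1 := continuous_of_discreteTopology.comp continuous_fst
    have hq : Continuous fun y : YY => q y.1 := continuous_of_discreteTopology.comp continuous_fst
    exact hq.sub hp

theorem gam_apply (p q : Fin 3 → ℂ) (k : Fin 3) (t : unitInterval) :
    gam p q (k, t) = p k + (t : ℝ) * (q k - p k) := rfl

theorem dir_apply (p q : Fin 3 → ℂ) (y : YY) : dir p q y = q y.1 - p y.1 := rfl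

/-- Integral along a contour. -/
def cint (γ d : C(YY, ℂ)) (h : ℂ → ℂ) : ℂ := ∫ y, d y * h (γ y) ∂muY

theorem integral_unitInterval (f : ℝ → ℂ) :
    ∫ t : unitInterval, f t = ∫ t in (0 : ℝ)..1, f t := by
  rw [intervalIntegral.integral_of_le zero_le_one, ← integral_Icc_eq_integral_Ioc]
  exact integral_subtype_comap measurableSet_Icc f

theorem integral_muY {f : YY → ℂ} (hf : Continuous f) :
    ∫ y, f y ∂muY = ∑ k, ∫ t : unitInterval, f (k, t) := by
  have hi : Integrable f muY :=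
    hf.integrable_of_hasCompactSupport (HasCompactSupport.of_compactSpace f)
  rw [muY, integral_prod f hi, integral_count]

theorem cint_ftc {p q : Fin 3 → ℂ} {h : ℂ → ℂ} (hc : Continuous fun y => h (gam p q y))
    (Φ : Fin 3 → ℂ → ℂ)
    (hΦ : ∀ y : YY, HasDerivAt (Φ y.1) (h (gam p q y)) (gam p q y)) :
    cint (gam p q) (dir p q) h = ∑ k, (Φ k (q k) - Φ k (p k)) := by
  unfold cint
  rw [integral_muY (f := fun y => dir p q y * h (gam p q y)) ((dir p q).continuous.mul hc)]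
  refine Finset.sum_congr rfl fun k _ => ?_
  have h1 : ∀ t ∈ uIcc (0 : ℝ) 1, HasDerivAt (fun t : ℝ => Φ k (p k + t * (q k - p k)))
      ((q k - p k) * h (p k + t * (q k - p k))) t := by
    intro t ht
    rw [uIcc_of_le zero_le_one] at ht
    have h2 := hΦ (k, ⟨t, ht⟩)
    rw [gam_apply] at h2
    have h3 : HasDerivAt (fun t : ℝ => p k + (t : ℂ) * (q k - p k)) (1 * (q k - p k)) t :=
      (((hasDerivAt_id (t : ℂ)).mul_const (q k - p k)).const_add (p k)).comp_ofReal
    have h4 := HasDerivAt.comp t h2 h3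
    rw [one_mul, mul_comm] at h4
    exact h4
  have h5 : ContinuousOn (fun t : ℝ => (q k - p k) * h (p k + t * (q k - p k)))
      (uIcc (0 : ℝ) 1) := by
    rw [uIcc_of_le zero_le_one, continuousOn_iff_continuous_domRestrict]
    have h6 : Continuous fun t : unitInterval => (q k - p k) * h (gam p q (k, t)) :=
      continuous_const.mul (hc.comp (Continuous.prodMk_right k))
    exact h6
  have h7 := intervalIntegral.integral_eq_sub_of_hasDerivAt h1 h5.intervalIntegrable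
  have h8 : (∫ t : unitInterval, dir p q (k, t) * h (gam p q (k, t))) =
      ∫ t in (0 : ℝ)..1, (q k - p k) * h (p k + t * (q k - p k)) := by
    rw [← integral_unitInterval]
    rfl
  rw [h8, h7]
  simp

/-- A line integral of an entire function. -/
theorem cint_entire {p q : Fin 3 → ℂ} {h Φ : ℂ → ℂ} (hΦ : ∀ z, HasDerivAt Φ (h z) z)
    (hc : Continuous h) :
    cint (gam p q) (dir p q) h = ∑ k, (Φ (q k) - Φ (p k)) :=
  cint_ftc (hc.comp (gam p q).continuous) (fun _ => Φ) fun _ => hΦ _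

theorem exists_primitive {h : ℂ → ℂ} (hh : Differentiable ℂ h) :
    ∃ Φ : ℂ → ℂ, ∀ z, HasDerivAt Φ (h z) z := by
  obtain ⟨Φ, hΦ⟩ := hh.isExactOn_univ
  exact ⟨Φ, fun z => hΦ z (mem_univ z)⟩

/-- Starting points of the right arc. -/
def aP (ρ a : ℝ) : Fin 3 → ℂ := ![⟨a, -ρ⟩, ⟨1 + ρ, -ρ⟩, ⟨1 + ρ, ρ⟩]
/-- End points of the right arc. -/
def aQ (ρ a : ℝ) : Fin 3 → ℂ := ![⟨1 + ρ, -ρ⟩, ⟨1 + ρ, ρ⟩, ⟨a, ρ⟩]
/-- Starting points of the left arc. -/
def lP (ρ a : ℝ) : Fin 3 → ℂ := ![⟨a, ρ⟩, ⟨-ρ, ρ⟩, ⟨-ρ, -ρ⟩]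
/-- End points of the left arc. -/
def lQ (ρ a : ℝ) : Fin 3 → ℂ := ![⟨-ρ, ρ⟩, ⟨-ρ, -ρ⟩, ⟨a, -ρ⟩]
/-- Starting points of the vertical segment. -/
def vP (ρ a : ℝ) : Fin 3 → ℂ := ![⟨a, -ρ⟩, ⟨a, ρ⟩, ⟨a, ρ⟩]
/-- End points of the vertical segment. -/
def vQ (ρ a : ℝ) : Fin 3 → ℂ := ![⟨a, ρ⟩, ⟨a, ρ⟩, ⟨a, ρ⟩]

theorem gam_re (p q : Fin 3 → ℂ) (k : Fin 3) (t : unitInterval) :
    (gam p q (k, t)).re = (p k).re + t * ((q k).re - (p k).re) := by
  rw [gam_apply, add_re, re_ofReal_mul, sub_re]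

theorem gam_im (p q : Fin 3 → ℂ) (k : Fin 3) (t : unitInterval) :
    (gam p q (k, t)).im = (p k).im + t * ((q k).im - (p k).im) := by
  rw [gam_apply, add_im, im_ofReal_mul, sub_im]

/-- Description of the right arc. -/
theorem arc_spec {ρ a : ℝ} (hρ : 0 < ρ) (ha : a < 1 + ρ) (y : YY) :
    a ≤ (gam (aP ρ a) (aQ ρ a) y).re ∧ (gam (aP ρ a) (aQ ρ a) y).re ≤ 1 + ρ ∧
    -ρ ≤ (gam (aP ρ a) (aQ ρ a) y).im ∧ (gam (aP ρ a) (aQ ρ a) y).im ≤ ρ ∧
    ((gam (aP ρ a) (aQ ρ a) y).im = -ρ ∨ (gam (aP ρ a) (aQ ρ a) y).im = ρ ∨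
      (gam (aP ρ a) (aQ ρ a) y).re = 1 + ρ) := by
  obtain ⟨k, t⟩ := y
  have h0 := t.2.1
  have h1 := t.2.2
  rw [gam_re, gam_im]
  fin_cases k
  · simp only [aP, aQ, Fin.zero_eta, Matrix.cons_val_zero, sub_self, mul_zero, add_zero]
    refine ⟨by nlinarith, by nlinarith, by linarith, by linarith, by simp⟩
  · simp only [aP, aQ, Fin.mk_one, Matrix.cons_val_one, Matrix.cons_val_zero, sub_self, mul_zero,
      add_zero]
    refine ⟨by nlinarith, by nlinarith, by nlinarith, by nlinarith, by simp⟩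
  · simp only [aP, aQ, Fin.reduceFinMk, Matrix.cons_val, sub_self, mul_zero, add_zero]
    refine ⟨by nlinarith, by nlinarith, by linarith, by linarith, by simp⟩

/-- Description of the left arc. -/
theorem lft_spec {ρ a : ℝ} (hρ : 0 < ρ) (ha : -ρ < a) (y : YY) :
    -ρ ≤ (gam (lP ρ a) (lQ ρ a) y).re ∧ (gam (lP ρ a) (lQ ρ a) y).re ≤ a ∧
    -ρ ≤ (gam (lP ρ a) (lQ ρ a) y).im ∧ (gam (lP ρ a) (lQ ρ a) y).im ≤ ρ ∧
    ((gam (lP ρ a) (lQ ρ a) y).im = -ρ ∨ (gam (lP ρ a) (lQ ρ a) y).im = ρ ∨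
      (gam (lP ρ a) (lQ ρ a) y).re = -ρ) := by
  obtain ⟨k, t⟩ := y
  have h0 := t.2.1
  have h1 := t.2.2
  rw [gam_re, gam_im]
  fin_cases k
  · simp only [lP, lQ, Fin.zero_eta, Matrix.cons_val_zero, sub_self, mul_zero, add_zero]
    refine ⟨by nlinarith, by nlinarith, by linarith, by linarith, by simp⟩
  · simp only [lP, lQ, Fin.mk_one, Matrix.cons_val_one, Matrix.cons_val_zero, sub_self, mul_zero,
      add_zero]
    refine ⟨by nlinarith, by nlinarith, by nlinarith, by nlinarith, by simp⟩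
  · simp only [lP, lQ, Fin.reduceFinMk, Matrix.cons_val, sub_self, mul_zero, add_zero]
    refine ⟨by nlinarith, by nlinarith, by linarith, by linarith, by simp⟩

/-- Description of the vertical segment. -/
theorem ver_spec {ρ a : ℝ} (hρ : 0 < ρ) (y : YY) :
    (gam (vP ρ a) (vQ ρ a) y).re = a ∧
    -ρ ≤ (gam (vP ρ a) (vQ ρ a) y).im ∧ (gam (vP ρ a) (vQ ρ a) y).im ≤ ρ := by
  obtain ⟨k, t⟩ := y
  have h0 := t.2.1
  have h1 := t.2.2
  rw [gam_re, gam_im]
  fin_cases k
  · simp only [vP, vQ, Fin.zero_eta, Matrix.cons_val_zero, sub_self, mul_zero, add_zero]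
    refine ⟨by simp, by nlinarith, by nlinarith⟩
  · simp only [vP, vQ, Fin.mk_one, Matrix.cons_val_one, Matrix.cons_val_zero, sub_self, mul_zero,
      add_zero]
    refine ⟨by simp, by nlinarith, by nlinarith⟩
  · simp only [vP, vQ, Fin.reduceFinMk, Matrix.cons_val, sub_self, mul_zero, add_zero]
    refine ⟨by simp, by nlinarith, by nlinarith⟩

/-- The right arc may be replaced by the vertical segment. -/
theorem arc_eq_ver (ρ a : ℝ) {h : ℂ → ℂ} (hh : Differentiable ℂ h) :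
    cint (gam (aP ρ a) (aQ ρ a)) (dir (aP ρ a) (aQ ρ a)) h =
      cint (gam (vP ρ a) (vQ ρ a)) (dir (vP ρ a) (vQ ρ a)) h := by
  obtain ⟨Φ, hΦ⟩ := exists_primitive hh
  rw [cint_entire hΦ hh.continuous, cint_entire hΦ hh.continuous]
  simp only [Fin.sum_univ_three, aP, aQ, vP, vQ, Matrix.cons_val]
  ring

/-- A closed contour integral of an entire function. -/
theorem arc_add_lft (ρ a : ℝ) {h : ℂ → ℂ} (hh : Differentiable ℂ h) :
    cint (gam (aP ρ a) (aQ ρ a)) (dir (aP ρ a) (aQ ρ a)) h +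
      cint (gam (lP ρ a) (lQ ρ a)) (dir (lP ρ a) (lQ ρ a)) h = 0 := by
  obtain ⟨Φ, hΦ⟩ := exists_primitive hh
  rw [cint_entire hΦ hh.continuous, cint_entire hΦ hh.continuous]
  simp only [Fin.sum_univ_three, aP, aQ, lP, lQ, Matrix.cons_val]
  ring

theorem log_I_mul_sub {z : ℂ} (h1 : 0 < z.re) (h2 : z.im < 0) :
    Complex.log (I * z) - Complex.log z = Real.pi / 2 * I := by
  have hz : z ≠ 0 := by rintro rfl; simp at h1
  rw [Complex.log_mul_eq_add_log_iff I_ne_zero hz |>.2, Complex.log_I]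
  · ring
  · rw [Complex.arg_I]
    have h3 : z.arg < 0 := Complex.arg_neg_iff.2 h2
    have h4 : |z.arg| < Real.pi / 2 := Complex.abs_arg_lt_pi_div_two_iff.2 (Or.inl h1)
    rw [abs_lt] at h4
    constructor <;> linarith [Real.pi_pos]

theorem hasDerivAt_log_mul {c x w : ℂ} (h : 0 < (c * (w - x)).re) :
    HasDerivAt (fun w => Complex.log (c * (w - x))) (w - x)⁻¹ w := by
  have h1 : HasDerivAt (fun w => c * (w - x)) (c * 1) w :=
    ((hasDerivAt_id w).sub_const x).const_mul c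
  have h2 := h1.clog (Or.inl h)
  have hc : c ≠ 0 := by rintro rfl; simp at h
  have hw : w - x ≠ 0 := by intro h3; rw [h3] at h; simp at h
  refine h2.congr_deriv ?_
  field_simp

theorem arc_inv_add_lft_inv {ρ a : ℝ} (hρ : 0 < ρ) (ha1 : -ρ < a) (ha2 : a < 1 + ρ) {x : ℂ}
    (hx1 : -ρ < x.re) (hx2 : x.re < 1 + ρ) (hx3 : -ρ < x.im) (hx4 : x.im < ρ) :
    cint (gam (aP ρ a) (aQ ρ a)) (dir (aP ρ a) (aQ ρ a)) (fun w => (w - x)⁻¹) +
      cint (gam (lP ρ a) (lQ ρ a)) (dir (lP ρ a) (lQ ρ a)) (fun w => (w - x)⁻¹) =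
      2 * Real.pi * I := by
  have hca : Continuous fun y => (gam (aP ρ a) (aQ ρ a) y - x)⁻¹ := by
    refine Continuous.inv₀ ((gam (aP ρ a) (aQ ρ a)).continuous.sub continuous_const) fun y => ?_
    intro h
    rw [sub_eq_zero] at h
    obtain ⟨-, -, -, -, h5⟩ := arc_spec hρ ha2 y
    rw [h] at h5
    rcases h5 with h5 | h5 | h5 <;> linarith
  have hcl : Continuous fun y => (gam (lP ρ a) (lQ ρ a) y - x)⁻¹ := by
    refine Continuous.inv₀ ((gam (lP ρ a) (lQ ρ a)).continuous.sub continuous_const) fun y => ?_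
    intro h
    rw [sub_eq_zero] at h
    obtain ⟨-, -, -, -, h5⟩ := lft_spec hρ ha1 y
    rw [h] at h5
    rcases h5 with h5 | h5 | h5 <;> linarith
  rw [cint_ftc (h := fun w => (w - x)⁻¹) hca
    (fun k w => Complex.log ((![I, 1, -I] : Fin 3 → ℂ) k * (w - x))) ?_,
    cint_ftc (h := fun w => (w - x)⁻¹) hcl
    (fun k w => Complex.log ((![-I, -1, I] : Fin 3 → ℂ) k * (w - x))) ?_]
  · simp only [Fin.sum_univ_three, aP, aQ, lP, lQ, Matrix.cons_val, one_mul]
    have e2 := @log_I_mul_sub ((⟨1 + ρ, -ρ⟩ : ℂ) - x) (by simp; linarith) (by simp; linarith)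
    have e3 := @log_I_mul_sub (-I * ((⟨1 + ρ, ρ⟩ : ℂ) - x)) (by simp; linarith)
      (by simp; linarith)
    have e4 := @log_I_mul_sub (-1 * ((⟨-ρ, ρ⟩ : ℂ) - x)) (by simp; linarith) (by simp; linarith)
    have e1 := @log_I_mul_sub (I * ((⟨-ρ, -ρ⟩ : ℂ) - x)) (by simp; linarith) (by simp; linarith)
    have f3 : I * (-I * ((⟨1 + ρ, ρ⟩ : ℂ) - x)) = (⟨1 + ρ, ρ⟩ : ℂ) - x := by
      rw [← mul_assoc, mul_neg, I_mul_I, neg_neg, one_mul]
    have f4 : I * (-1 * ((⟨-ρ, ρ⟩ : ℂ) - x)) = -I * ((⟨-ρ, ρ⟩ : ℂ) - x) := by ring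
    have f1 : I * (I * ((⟨-ρ, -ρ⟩ : ℂ) - x)) = -1 * ((⟨-ρ, -ρ⟩ : ℂ) - x) := by
      rw [← mul_assoc, I_mul_I]
    rw [f3] at e3
    rw [f4] at e4
    rw [f1] at e1
    linear_combination e1 + e2 + e3 + e4
  · rintro ⟨k, t⟩
    have h0 := t.2.1
    have h1 := t.2.2
    apply hasDerivAt_log_mul
    fin_cases k
    · simp only [lP, lQ, Fin.zero_eta, Matrix.cons_val_zero, gam_apply]
      simp
      nlinarith
    · simp only [lP, lQ, Fin.mk_one, Matrix.cons_val_one, Matrix.cons_val_zero, gam_apply]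
      simp
      nlinarith
    · simp only [lP, lQ, Fin.reduceFinMk, Matrix.cons_val, gam_apply]
      simp
      nlinarith
  · rintro ⟨k, t⟩
    have h0 := t.2.1
    have h1 := t.2.2
    apply hasDerivAt_log_mul
    fin_cases k
    · simp only [aP, aQ, Fin.zero_eta, Matrix.cons_val_zero, gam_apply]
      simp
      nlinarith
    · simp only [aP, aQ, Fin.mk_one, Matrix.cons_val_one, Matrix.cons_val_zero, gam_apply]
      simp
      nlinarith
    · simp only [aP, aQ, Fin.reduceFinMk, Matrix.cons_val, gam_apply]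
      simp
      nlinarith

theorem cint_add {γ d : C(YY, ℂ)} {f g : ℂ → ℂ} (hf : Continuous fun y => f (γ y))
    (hg : Continuous fun y => g (γ y)) :
    cint γ d (fun w => f w + g w) = cint γ d f + cint γ d g := by
  unfold cint
  rw [← integral_add]
  · simp only [mul_add]
  · exact (d.continuous.mul hf).integrable_of_hasCompactSupport
      (HasCompactSupport.of_compactSpace _)
  · exact (d.continuous.mul hg).integrable_of_hasCompactSupport
      (HasCompactSupport.of_compactSpace _)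

theorem cint_const_mul {γ d : C(YY, ℂ)} {f : ℂ → ℂ} (c : ℂ) :
    cint γ d (fun w => c * f w) = c * cint γ d f := by
  unfold cint
  rw [← integral_const_mul]
  congr 1
  funext y
  ring

theorem cint_congr {γ d : C(YY, ℂ)} {f g : ℂ → ℂ} (h : ∀ y, f (γ y) = g (γ y)) :
    cint γ d f = cint γ d g := by
  unfold cint
  simp only [h]

/-- Cauchy's formula for the rectangle. -/
theorem cauchy_rect {ρ a : ℝ} (hρ : 0 < ρ) (ha1 : -ρ < a) (ha2 : a < 1 + ρ) {x : ℂ}
    (hx1 : -ρ < x.re) (hx2 : x.re < 1 + ρ) (hx3 : -ρ < x.im) (hx4 : x.im < ρ) {h : ℂ → ℂ}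
    (hh : Differentiable ℂ h) :
    cint (gam (aP ρ a) (aQ ρ a)) (dir (aP ρ a) (aQ ρ a)) (fun w => h w * (w - x)⁻¹) +
      cint (gam (lP ρ a) (lQ ρ a)) (dir (lP ρ a) (lQ ρ a)) (fun w => h w * (w - x)⁻¹) =
      2 * Real.pi * I * h x := by
  have hna : ∀ y, gam (aP ρ a) (aQ ρ a) y ≠ x := by
    intro y h
    obtain ⟨-, -, -, -, h5⟩ := arc_spec hρ ha2 y
    rw [h] at h5
    rcases h5 with h5 | h5 | h5 <;> linarith
  have hnl : ∀ y, gam (lP ρ a) (lQ ρ a) y ≠ x := by
    intro y h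
    obtain ⟨-, -, -, -, h5⟩ := lft_spec hρ ha1 y
    rw [h] at h5
    rcases h5 with h5 | h5 | h5 <;> linarith
  have hd : Differentiable ℂ (dslope h x) := by
    rw [← differentiableOn_univ, Complex.differentiableOn_dslope univ_mem]
    exact hh.differentiableOn
  have key : ∀ w, w ≠ x → h w * (w - x)⁻¹ = dslope h x w + h x * (w - x)⁻¹ := by
    intro w hw
    rw [dslope_of_ne _ hw, slope_def_field]
    have : w - x ≠ 0 := sub_ne_zero.2 hw
    field_simp
    ring
  have hcon : ∀ γ : C(YY, ℂ), (∀ y, γ y ≠ x) → Continuous fun y => h x * (γ y - x)⁻¹ := by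
    intro γ hγ
    exact continuous_const.mul ((γ.continuous.sub continuous_const).inv₀ fun y =>
      sub_ne_zero.2 (hγ y))
  rw [cint_congr (g := fun w => dslope h x w + h x * (w - x)⁻¹) (fun y => key _ (hna y)),
    cint_congr (γ := gam (lP ρ a) (lQ ρ a)) (g := fun w => dslope h x w + h x * (w - x)⁻¹)
      (fun y => key _ (hnl y)),
    cint_add (f := dslope h x) (g := fun w => h x * (w - x)⁻¹)
      (hd.continuous.comp (ContinuousMap.continuous _)) (hcon _ hna),
    cint_add (f := dslope h x) (g := fun w => h x * (w - x)⁻¹)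
      (hd.continuous.comp (ContinuousMap.continuous _)) (hcon _ hnl), cint_const_mul,
    cint_const_mul]
  have h1 := arc_add_lft ρ a hd
  have h2 := arc_inv_add_lft_inv hρ ha1 ha2 hx1 hx2 hx3 hx4
  linear_combination h1 + h x * h2

end Pool.Agent.MP_564bf3_an
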