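import Pool.Agent.Lib.MP_564bf3_an.Bounds
import Pool.Agent.Lib.MP_564bf3_an.Contour

/-!
# The double contour integral
-/

open Complex Filter Set MeasureTheory
open scoped Topology

noncomputable section

namespace Pool.Agent.MP_564bf3_an

variable {M : Type*} [TopologicalSpace M] [CompactSpace M]

/-- The resolvent along a contour. -/
def resC (γ : C(YY, ℂ)) (X : C(M, ℂ)) (h : ∀ y x, γ y ≠ X x) : C(YY, C(M, ℂ)) :=
  ContinuousMap.curry ⟨fun p => (γ p.1 - X p.2)⁻¹,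
    ((γ.continuous.comp continuous_fst).sub (X.continuous.comp continuous_snd)).inv₀
      fun p => sub_ne_zero.2 (h p.1 p.2)⟩

omit [CompactSpace M] in
theorem resC_apply (γ : C(YY, ℂ)) (X : C(M, ℂ)) (h : ∀ y x, γ y ≠ X x) (y : YY) (x : M) :
    resC γ X h y x = (γ y - X x)⁻¹ := rfl

/-- Pairs of parameters. -/
abbrev ZZ : Type := YY × YY

/-- The measure on pairs of parameters. -/
def muZ : Measure ZZ := muY.prod muY

instance : IsFiniteMeasure muZ := by unfold muZ; infer_instance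

theorem integrable_muZ {V : Type*} [NormedAddCommGroup V] {f : ZZ → V} (hf : Continuous f) :
    Integrable f muZ :=
  hf.integrable_of_hasCompactSupport (HasCompactSupport.of_compactSpace f)

theorem integrable_muY {V : Type*} [NormedAddCommGroup V] {f : YY → V} (hf : Continuous f) :
    Integrable f muY :=
  hf.integrable_of_hasCompactSupport (HasCompactSupport.of_compactSpace f)

/-- The double contour integrand. -/
def vv (γ₁ d₁ γ₂ d₂ : C(YY, ℂ)) (u₁ u₂ : C(YY, C(M, ℂ))) (G : C(ℂ × ℂ, ℂ)) :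
    C(ZZ, C(M, ℂ)) :=
  ⟨fun z => (d₁ z.1 * d₂ z.2 * G (γ₁ z.1, γ₂ z.2)) • (u₁ z.1 * u₂ z.2), by fun_prop⟩

theorem vv_apply (γ₁ d₁ γ₂ d₂ : C(YY, ℂ)) (u₁ u₂ : C(YY, C(M, ℂ))) (G : C(ℂ × ℂ, ℂ)) (z : ZZ) :
    vv γ₁ d₁ γ₂ d₂ u₁ u₂ G z = (d₁ z.1 * d₂ z.2 * G (γ₁ z.1, γ₂ z.2)) • (u₁ z.1 * u₂ z.2) := rfl

theorem norm_integral_vv_le {γ₁ d₁ γ₂ d₂ : C(YY, ℂ)} {u₁ u₂ : C(YY, C(M, ℂ))} {G : C(ℂ × ℂ, ℂ)}
    {B : ℝ} (hB : ∀ y₁ y₂, ‖G (γ₁ y₁, γ₂ y₂)‖ ≤ B) :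
    ‖∫ z, vv γ₁ d₁ γ₂ d₂ u₁ u₂ G z ∂muZ‖ ≤
      ‖d₁‖ * ‖d₂‖ * (‖u₁‖ * ‖u₂‖) * muZ.real univ * B := by
  have h : ∀ z, ‖vv γ₁ d₁ γ₂ d₂ u₁ u₂ G z‖ ≤ ‖d₁‖ * ‖d₂‖ * B * (‖u₁‖ * ‖u₂‖) := by
    intro z
    have hB0 : 0 ≤ B := (norm_nonneg _).trans (hB z.1 z.2)
    rw [vv_apply, norm_smul, norm_mul, norm_mul]
    gcongr
    · exact d₁.norm_coe_le_norm _
    · exact d₂.norm_coe_le_norm _
    · exact hB _ _
    · refine (norm_mul_le _ _).trans ?_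
      gcongr
      · exact u₁.norm_coe_le_norm _
      · exact u₂.norm_coe_le_norm _
  refine (norm_integral_le_of_norm_le_const (Eventually.of_forall h)).trans (le_of_eq ?_)
  ring

/-- The properties of the three contours which are used below. -/
structure Contours (γA dA γL dL γV dV : C(YY, ℂ)) (ρ a : ℝ) : Prop where
  cauchy : ∀ x : ℂ, -ρ < x.re → x.re < 1 + ρ → -ρ < x.im → x.im < ρ → ∀ h : ℂ → ℂ,
    Differentiable ℂ h → cint γA dA (fun w => h w * (w - x)⁻¹) +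
      cint γL dL (fun w => h w * (w - x)⁻¹) = 2 * Real.pi * I * h x
  ver : ∀ h : ℂ → ℂ, Differentiable ℂ h → cint γA dA h = cint γV dV h
  arc : ∀ y, a ≤ (γA y).re ∧ (γA y).re ≤ 1 + ρ ∧ -ρ ≤ (γA y).im ∧ (γA y).im ≤ ρ ∧
    ((γA y).im = -ρ ∨ (γA y).im = ρ ∨ (γA y).re = 1 + ρ)
  lft : ∀ y, -ρ ≤ (γL y).re ∧ (γL y).re ≤ a ∧ -ρ ≤ (γL y).im ∧ (γL y).im ≤ ρ ∧
    ((γL y).im = -ρ ∨ (γL y).im = ρ ∨ (γL y).re = -ρ)
  seg : ∀ y, (γV y).re = a ∧ -ρ ≤ (γV y).im ∧ (γV y).im ≤ ρ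

theorem exists_contours {ρ a : ℝ} (hρ : 0 < ρ) (ha1 : -ρ < a) (ha2 : a < 1 + ρ) :
    ∃ γA dA γL dL γV dV : C(YY, ℂ), Contours γA dA γL dL γV dV ρ a :=
  ⟨gam (aP ρ a) (aQ ρ a), dir (aP ρ a) (aQ ρ a), gam (lP ρ a) (lQ ρ a), dir (lP ρ a) (lQ ρ a),
    gam (vP ρ a) (vQ ρ a), dir (vP ρ a) (vQ ρ a),
    { cauchy := fun _ h1 h2 h3 h4 _ hh => cauchy_rect hρ ha1 ha2 h1 h2 h3 h4 hh
      ver := fun _ hh => arc_eq_ver ρ a hh
      arc := arc_spec hρ ha2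
      lft := lft_spec hρ ha1
      seg := ver_spec hρ }⟩

/-- Inner Cauchy formula. -/
theorem two_inner {γA dA γL dL : C(YY, ℂ)} (γ₁ d₁ : C(YY, ℂ)) (u₁ : C(YY, C(M, ℂ)))
    {uA uL : C(YY, C(M, ℂ))} (G : C(ℂ × ℂ, ℂ)) {x : M} {X : ℂ}
    (huA : ∀ y, uA y x = (γA y - X)⁻¹) (huL : ∀ y, uL y x = (γL y - X)⁻¹)
    (hC : ∀ w, cint γA dA (fun w' => G (w, w') * (w' - X)⁻¹) +
      cint γL dL (fun w' => G (w, w') * (w' - X)⁻¹) = 2 * Real.pi * I * G (w, X)) :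
    (∫ z, vv γ₁ d₁ γA dA u₁ uA G z ∂muZ) x + (∫ z, vv γ₁ d₁ γL dL u₁ uL G z ∂muZ) x =
      2 * Real.pi * I * ∫ y, d₁ y * (G (γ₁ y, X) * u₁ y x) ∂muY := by
  rw [ContinuousMap.integral_apply (integrable_muZ (ContinuousMap.continuous _)),
    ContinuousMap.integral_apply (integrable_muZ (ContinuousMap.continuous _))]
  have hcA : Continuous fun z : ZZ => vv γ₁ d₁ γA dA u₁ uA G z x :=
    (continuous_eval_const x).comp (ContinuousMap.continuous _)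
  have hcL : Continuous fun z : ZZ => vv γ₁ d₁ γL dL u₁ uL G z x :=
    (continuous_eval_const x).comp (ContinuousMap.continuous _)
  rw [← integral_add (integrable_muZ hcA) (integrable_muZ hcL), muZ,
    integral_prod (fun z : ZZ => vv γ₁ d₁ γA dA u₁ uA G z x + vv γ₁ d₁ γL dL u₁ uL G z x)
      (integrable_muZ (hcA.add hcL)), ← integral_const_mul]
  congr 1
  funext y
  have hcA' : Continuous fun y₂ : YY => vv γ₁ d₁ γA dA u₁ uA G (y, y₂) x :=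
    hcA.comp (Continuous.prodMk_right y)
  have hcL' : Continuous fun y₂ : YY => vv γ₁ d₁ γL dL u₁ uL G (y, y₂) x :=
    hcL.comp (Continuous.prodMk_right y)
  have h2 : (∫ y₂, (vv γ₁ d₁ γA dA u₁ uA G (y, y₂) x +
      vv γ₁ d₁ γL dL u₁ uL G (y, y₂) x) ∂muY) =
      d₁ y * u₁ y x * (cint γA dA (fun w => G (γ₁ y, w) * (w - X)⁻¹) +
      cint γL dL (fun w => G (γ₁ y, w) * (w - X)⁻¹)) := by
    rw [integral_add (integrable_muY hcA') (integrable_muY hcL'), mul_add, cint, cint,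
      ← integral_const_mul, ← integral_const_mul]
    congr 1
    · congr 1
      funext y₂
      rw [← huA, vv_apply, ContinuousMap.smul_apply, ContinuousMap.mul_apply, smul_eq_mul]
      ring
    · congr 1
      funext y₂
      rw [← huL, vv_apply, ContinuousMap.smul_apply, ContinuousMap.mul_apply, smul_eq_mul]
      ring
  rw [h2, hC]
  ring

/-- Cauchy formula in two variables. -/
theorem two_cauchy {γA dA γL dL γV dV : C(YY, ℂ)} {ρ a : ℝ}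
    (hK : Contours γA dA γL dL γV dV ρ a) (X₁ X₂ : C(M, ℂ)) {uA uL vA vL : C(YY, C(M, ℂ))}
    (huA : ∀ y x, uA y x = (γA y - X₁ x)⁻¹) (huL : ∀ y x, uL y x = (γL y - X₁ x)⁻¹)
    (hvA : ∀ y x, vA y x = (γA y - X₂ x)⁻¹) (hvL : ∀ y x, vL y x = (γL y - X₂ x)⁻¹)
    (h1 : ∀ x, -ρ < (X₁ x).re ∧ (X₁ x).re < 1 + ρ ∧ -ρ < (X₁ x).im ∧ (X₁ x).im < ρ)
    (h2 : ∀ x, -ρ < (X₂ x).re ∧ (X₂ x).re < 1 + ρ ∧ -ρ < (X₂ x).im ∧ (X₂ x).im < ρ)
    (G : C(ℂ × ℂ, ℂ)) (hG : Differentiable ℂ G) (F : C(M, ℂ)) (hF : ∀ x, F x = G (X₁ x, X₂ x)) :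
    (∫ z, vv γA dA γA dA uA vA G z ∂muZ) + (∫ z, vv γA dA γL dL uA vL G z ∂muZ) +
      ((∫ z, vv γL dL γA dA uL vA G z ∂muZ) + (∫ z, vv γL dL γL dL uL vL G z ∂muZ)) =
      (2 * Real.pi * I) ^ 2 • F := by
  ext x
  have hG1 : ∀ w, Differentiable ℂ fun w' => G (w, w') := fun w =>
    hG.comp ((differentiable_const w).prodMk differentiable_id)
  have hG2 : ∀ w, Differentiable ℂ fun w' => G (w', w) := fun w =>
    hG.comp (differentiable_id.prodMk (differentiable_const w))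
  have hC : ∀ w, cint γA dA (fun w' => G (w, w') * (w' - X₂ x)⁻¹) +
      cint γL dL (fun w' => G (w, w') * (w' - X₂ x)⁻¹) = 2 * Real.pi * I * G (w, X₂ x) :=
    fun w => hK.cauchy _ (h2 x).1 (h2 x).2.1 (h2 x).2.2.1 (h2 x).2.2.2 _ (hG1 w)
  have hC' := hK.cauchy _ (h1 x).1 (h1 x).2.1 (h1 x).2.2.1 (h1 x).2.2.2 _ (hG2 (X₂ x))
  rw [ContinuousMap.add_apply, ContinuousMap.add_apply, ContinuousMap.add_apply,
    two_inner γA dA uA G (fun y => hvA y x) (fun y => hvL y x) hC,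
    two_inner γL dL uL G (fun y => hvA y x) (fun y => hvL y x) hC,
    ContinuousMap.smul_apply, hF, smul_eq_mul]
  simp only [huA, huL]
  rw [← mul_add]
  unfold cint at hC'
  rw [hC']
  ring

end Pool.Agent.MP_564bf3_an
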