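import Pool.Agent.Lib.MP_564bf3_an.Core

/-!
# The estimate of the double contour integral over the right arcs
-/

open Complex Filter Set MeasureTheory
open scoped Topology

noncomputable section

namespace Pool.Agent.MP_564bf3_an

variable {M : Type*} [TopologicalSpace M] [CompactSpace M]

theorem norm_cint_le {γ d : C(YY, ℂ)} {f : ℂ → ℂ} {B : ℝ} (h : ∀ y, ‖f (γ y)‖ ≤ B) :
    ‖cint γ d f‖ ≤ ‖d‖ * B * muY.real univ := by
  refine norm_integral_le_of_norm_le_const (Eventually.of_forall fun y => ?_)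
  rw [norm_mul]
  have hB0 : 0 ≤ B := (norm_nonneg _).trans (h y)
  gcongr
  · exact d.norm_coe_le_norm _
  · exact h y

/-- The closed rectangle. -/
def InRect (ρ : ℝ) (w : ℂ) : Prop := -ρ ≤ w.re ∧ w.re ≤ 1 + ρ ∧ -ρ ≤ w.im ∧ w.im ≤ ρ

theorem one_side {γA dA γL dL γV dV : C(YY, ℂ)} {ρ a : ℝ}
    (hK : Contours γA dA γL dL γV dV ρ a) (hρ : 0 < ρ) (ha1 : -ρ < a) (ha2 : a < 1 + ρ)
    (G : C(ℂ × ℂ, ℂ)) (hG : Differentiable ℂ G) {B : ℝ}
    (hB : ∀ w₁ w₂, InRect ρ w₁ → InRect ρ w₂ → w₂.re = a → ‖G (w₁, w₂)‖ ≤ B)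
    {s : ℝ} (hs : 0 ≤ s) {K : YY → ℂ} (hKc : Continuous K) {k : ℝ} (hk : ∀ y, ‖K y‖ ≤ k) :
    ‖∫ z : ZZ, dA z.1 * dA z.2 * G (γA z.1, γA z.2) * cexp (-(s * (γA z.1 + γA z.2))) * K z.1 ∂muZ‖
      ≤ ‖dA‖ * ‖dV‖ * muY.real univ ^ 2 * k * Real.exp (-(2 * a) * s) * B := by
  have hB0 : 0 ≤ B := (norm_nonneg _).trans (hB (a : ℂ) (a : ℂ) ⟨by simpa using ha1.le,
    by simpa using ha2.le, by simpa using hρ.le, by simpa using hρ.le⟩ ⟨by simpa using ha1.le,
    by simpa using ha2.le, by simpa using hρ.le, by simpa using hρ.le⟩ (by simp))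
  have hcont : Continuous fun z : ZZ => dA z.1 * dA z.2 * G (γA z.1, γA z.2) *
      cexp (-(s * (γA z.1 + γA z.2))) * K z.1 := by fun_prop
  rw [muZ, integral_prod _ (integrable_muZ hcont)]
  have hin : ∀ y₁ : YY, ‖∫ y₂, dA y₁ * dA y₂ * G (γA y₁, γA y₂) *
      cexp (-(s * (γA y₁ + γA y₂))) * K y₁ ∂muY‖ ≤
      ‖dA‖ * Real.exp (-(a * s)) * k * (‖dV‖ * (B * Real.exp (-(a * s))) * muY.real univ) := by
    intro y₁
    have h1 : (∫ y₂, dA y₁ * dA y₂ * G (γA y₁, γA y₂) * cexp (-(s * (γA y₁ + γA y₂))) * K y₁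
        ∂muY) = dA y₁ * cexp (-(s * γA y₁)) * K y₁ *
          cint γA dA fun w => G (γA y₁, w) * cexp (-(s * w)) := by
      rw [cint, ← integral_const_mul]
      congr 1
      funext y₂
      have h2 : cexp (-(s * (γA y₁ + γA y₂))) = cexp (-(s * γA y₁)) * cexp (-(s * γA y₂)) := by
        rw [← Complex.exp_add]; ring_nf
      rw [h2]; ring
    have h3 : Differentiable ℂ fun w => G (γA y₁, w) * cexp (-(s * w)) :=
      (hG.comp ((differentiable_const _).prodMk differentiable_id)).mul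
        ((differentiable_id.const_mul _).neg.cexp)
    have hk0 : 0 ≤ k := (norm_nonneg _).trans (hk y₁)
    rw [h1, hK.ver _ h3, norm_mul, norm_mul, norm_mul]
    have h4 : ‖cexp (-(s * γA y₁))‖ ≤ Real.exp (-(a * s)) := by
      rw [Complex.norm_exp, neg_re, re_ofReal_mul]
      apply Real.exp_le_exp.2
      have := (hK.arc y₁).1
      nlinarith
    have h5 : ‖cint γV dV fun w => G (γA y₁, w) * cexp (-(s * w))‖ ≤
        ‖dV‖ * (B * Real.exp (-(a * s))) * muY.real univ := by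
      apply norm_cint_le
      intro y
      obtain ⟨h6, h7, h8⟩ := hK.seg y
      obtain ⟨h9, h10, h11, h12, -⟩ := hK.arc y₁
      rw [norm_mul]
      apply mul_le_mul _ _ (norm_nonneg _) hB0
      · refine hB _ _ ⟨ha1.le.trans h9, h10, h11, h12⟩ ⟨?_, ?_, h7, h8⟩ h6
        · rw [h6]; exact ha1.le
        · rw [h6]; exact ha2.le
      · rw [Complex.norm_exp, neg_re, re_ofReal_mul, h6, mul_comm]
    gcongr
    · exact dA.norm_coe_le_norm _
    · exact hk _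
  refine (norm_integral_le_of_norm_le_const (Eventually.of_forall hin)).trans (le_of_eq ?_)
  have h6 : Real.exp (-(2 * a) * s) = Real.exp (-(a * s)) * Real.exp (-(a * s)) := by
    rw [← Real.exp_add]; ring_nf
  rw [h6]; ring

/-- Integration as a bounded operator. -/
def intZ (V : Type*) [NormedAddCommGroup V] [NormedSpace ℝ V] : C(ZZ, V) →L[ℝ] V :=
  LinearMap.mkContinuous
    { toFun := fun f => ∫ z, f z ∂muZ
      map_add' := fun f g => by
        simp only [ContinuousMap.add_apply]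
        exact integral_add (integrable_muZ f.continuous) (integrable_muZ g.continuous)
      map_smul' := fun c f => by
        simp only [ContinuousMap.smul_apply, RingHom.id_apply]
        exact integral_smul c _ } (muZ.real univ) fun f => by
    rw [mul_comm]
    exact norm_integral_le_of_norm_le_const (Eventually.of_forall fun z => f.norm_coe_le_norm z)

theorem intZ_apply {V : Type*} [NormedAddCommGroup V] [NormedSpace ℝ V] (f : C(ZZ, V)) :
    intZ V f = ∫ z, f z ∂muZ := rfl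

/-- The exponent. -/
def Lam (γ : C(YY, ℂ)) (X₁ X₂ : C(M, ℂ)) : C(ZZ, C(M, ℂ)) :=
  ⟨fun z => X₁ + X₂ - (γ z.1 + γ z.2) • (1 : C(M, ℂ)), by fun_prop⟩

theorem exp_Lam (γ : C(YY, ℂ)) (X₁ X₂ : C(M, ℂ)) (s : ℝ) (z : ZZ) :
    (NormedSpace.exp (s • Lam γ X₁ X₂)) z =
      cexp (-(s * (γ z.1 + γ z.2))) • NormedSpace.exp ((s : ℂ) • X₁ + (s : ℂ) • X₂) := by
  have h := NormedSpace.map_exp (ContinuousMap.evalAlgHom ℂ C(M, ℂ) z)
    (continuous_eval_const z) (s • Lam γ X₁ X₂)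
  have h1 : (NormedSpace.exp (s • Lam γ X₁ X₂)) z =
      NormedSpace.exp ((s • Lam γ X₁ X₂) z) := h
  rw [h1]
  ext x
  simp only [exp_apply, ContinuousMap.smul_apply, smul_eq_mul]
  rw [← Complex.exp_add]
  congr 1
  simp only [Lam, ContinuousMap.smul_apply, ContinuousMap.coe_mk, ContinuousMap.sub_apply,
    ContinuousMap.add_apply, ContinuousMap.one_apply, smul_eq_mul, real_smul]
  ring

/-- The estimate of the integral over the product of the right arcs. -/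
theorem arc_arc {γA dA γL dL γV dV : C(YY, ℂ)} {ρ a : ℝ}
    (hK : Contours γA dA γL dL γV dV ρ a) (hρ : 0 < ρ) (ha1 : -ρ < a) (ha2 : a < 1 + ρ)
    (Θ : C(M, ℂ) →L[ℂ] ℂ) (X₁ X₂ : C(M, ℂ)) {κ ε C : ℝ} (hE : ExpBd Θ X₁ X₂ κ ε C) (hC : 0 ≤ C)
    (hε : ε ≤ ρ / 2) (hκ : κ < 2 * a) (hS₁ : ∀ y, Sep X₁ ρ (γA y)) (hS₂ : ∀ y, Sep X₂ ρ (γA y))
    {u v : C(YY, C(M, ℂ))} (hu : ∀ y x, (γA y - X₁ x) * u y x = 1)
    (hv : ∀ y x, (γA y - X₂ x) * v y x = 1) (G : C(ℂ × ℂ, ℂ)) (hG : Differentiable ℂ G) {B : ℝ}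
    (hB₁ : ∀ w₁ w₂, InRect ρ w₁ → InRect ρ w₂ → w₂.re = a → ‖G (w₁, w₂)‖ ≤ B)
    (hB₂ : ∀ w₁ w₂, InRect ρ w₁ → InRect ρ w₂ → w₁.re = a → ‖G (w₁, w₂)‖ ≤ B) :
    ‖Θ (∫ z, vv γA dA γA dA u v G z ∂muZ)‖ ≤
      2 * (‖dA‖ * ‖dV‖ * muY.real univ ^ 2 * (2 / ρ * C)) / (2 * a - κ) * B := by
  have hB0 : 0 ≤ B := (norm_nonneg _).trans (hB₁ (a : ℂ) (a : ℂ) ⟨by simpa using ha1.le,
    by simpa using ha2.le, by simpa using hρ.le, by simpa using hρ.le⟩ ⟨by simpa using ha1.le,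
    by simpa using ha2.le, by simpa using hρ.le, by simpa using hρ.le⟩ (by simp))
  set Λ := Lam γA X₁ X₂ with hΛ
  set w := vv γA dA γA dA u v G with hw
  set E : ℝ → C(M, ℂ) := fun s => NormedSpace.exp ((s : ℂ) • X₁ + (s : ℂ) • X₂) with hEdef
  set L : C(ZZ, C(M, ℂ)) →L[ℝ] ℂ := (Θ.restrictScalars ℝ).comp (intZ C(M, ℂ)) with hL
  have hLapp : ∀ f : C(ZZ, C(M, ℂ)), L f = ∫ z, Θ (f z) ∂muZ := by
    intro f
    rw [Θ.integral_comp_comm (integrable_muZ f.continuous)]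
    rfl
  set φ : ℝ → ℂ := fun s => L (NormedSpace.exp (s • Λ) * w) with hφ
  set φ' : ℝ → ℂ := fun s => L (NormedSpace.exp (s • Λ) * Λ * w) with hφ'
  have hd : ∀ s, HasDerivAt φ (φ' s) s := by
    intro s
    have h4 : HasDerivAt (fun s : ℝ => NormedSpace.exp (s • Λ) * w)
        (NormedSpace.exp (s • Λ) * Λ * w) s :=
      (hasDerivAt_exp_smul_const Λ s).mul_const w
    exact L.hasFDerivAt.comp_hasDerivAt s h4
  have hφ0 : φ 0 = Θ (∫ z, w z ∂muZ) := by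
    simp only [hφ, zero_smul, NormedSpace.exp_zero, one_mul]
    rfl
  rw [← hφ0]
  set K : ℝ := 2 * (‖dA‖ * ‖dV‖ * muY.real univ ^ 2 * (2 / ρ * C)) * B with hKdef
  have hK0 : 0 ≤ K := by positivity
  have hfin := decay (φ' := φ') (K := K) (η := 2 * a - κ) (by linarith) hK0 hd ?_ ?_
  · refine hfin.trans (le_of_eq ?_)
    rw [hKdef]; ring
  · intro s hs
    have hcu : Continuous fun y => Θ (E s * u y) := by fun_prop
    have hcv : Continuous fun y => Θ (E s * v y) := by fun_prop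
    have h1 : φ' s = -((∫ z : ZZ, dA z.1 * dA z.2 * G (γA z.1, γA z.2) *
          cexp (-(s * (γA z.1 + γA z.2))) * Θ (E s * u z.1) ∂muZ) +
        ∫ z : ZZ, dA z.1 * dA z.2 * G (γA z.1, γA z.2) *
          cexp (-(s * (γA z.1 + γA z.2))) * Θ (E s * v z.2) ∂muZ) := by
      have hc1 : Continuous fun z : ZZ => dA z.1 * dA z.2 * G (γA z.1, γA z.2) *
          cexp (-(s * (γA z.1 + γA z.2))) * Θ (E s * u z.1) := by fun_prop
      have hc2 : Continuous fun z : ZZ => dA z.1 * dA z.2 * G (γA z.1, γA z.2) *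
          cexp (-(s * (γA z.1 + γA z.2))) * Θ (E s * v z.2) := by fun_prop
      rw [← integral_add (integrable_muZ hc1) (integrable_muZ hc2), ← integral_neg]
      simp only [hφ', hLapp]
      congr 1
      funext z
      have h2 : Λ z * (u z.1 * v z.2) = -(u z.1 + v z.2) := by
        ext x
        have h3 := hu z.1 x
        have h4 := hv z.2 x
        simp only [hΛ, Lam, ContinuousMap.coe_mk, ContinuousMap.mul_apply,
          ContinuousMap.sub_apply, ContinuousMap.add_apply, ContinuousMap.smul_apply,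
          ContinuousMap.one_apply, ContinuousMap.neg_apply, smul_eq_mul]
        linear_combination (-(v z.2 x)) * h3 - (u z.1 x) * h4
      have h5 : (NormedSpace.exp (s • Λ) * Λ * w) z =
          (-(dA z.1 * dA z.2 * G (γA z.1, γA z.2) * cexp (-(s * (γA z.1 + γA z.2))))) •
            (E s * u z.1 + E s * v z.2) := by
        rw [mul_assoc, ContinuousMap.mul_apply, ContinuousMap.mul_apply, exp_Lam, hw, vv_apply,
          mul_smul_comm, h2]
        ext x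
        simp only [hEdef, ContinuousMap.mul_apply, ContinuousMap.add_apply,
          ContinuousMap.smul_apply, ContinuousMap.neg_apply, smul_eq_mul]
        ring
      rw [h5, map_smul, map_add, smul_eq_mul]
      ring
    rw [h1, norm_neg]
    refine (norm_add_le _ _).trans ?_
    have h6 := one_side hK hρ ha1 ha2 G hG hB₁ hs hcu
      (fun y => bound_fst hE hC hρ hε (hS₁ y) (hu y) hs)
    have hG' : Differentiable ℂ fun p : ℂ × ℂ => G (p.2, p.1) :=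
      hG.comp (differentiable_snd.prodMk differentiable_fst)
    have h7 := one_side hK hρ ha1 ha2 ⟨fun p : ℂ × ℂ => G (p.2, p.1), by fun_prop⟩ hG'
      (fun w₁ w₂ h8 h9 h10 => hB₂ w₂ w₁ h9 h8 h10) hs hcv
      (fun y => bound_snd hE hC hρ hε (hS₂ y) (hv y) hs)
    have h8 : (∫ z : ZZ, dA z.1 * dA z.2 * G (γA z.1, γA z.2) *
          cexp (-(s * (γA z.1 + γA z.2))) * Θ (E s * v z.2) ∂muZ) =
        ∫ z : ZZ, dA z.1 * dA z.2 * (⟨fun p : ℂ × ℂ => G (p.2, p.1), by fun_prop⟩ :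
          C(ℂ × ℂ, ℂ)) (γA z.1, γA z.2) *
          cexp (-(s * (γA z.1 + γA z.2))) * Θ (E s * v z.1) ∂muZ := by
      rw [muZ, ← integral_prod_swap]
      congr 1
      funext z
      simp only [Prod.fst_swap, Prod.snd_swap, ContinuousMap.coe_mk]
      rw [mul_comm (dA z.2), add_comm (γA z.2)]
    rw [h8]
    refine (add_le_add h6 h7).trans (le_of_eq ?_)
    have h9 : Real.exp (-(2 * a - κ) * s) = Real.exp (κ * s) * Real.exp (-(2 * a) * s) := by
      rw [← Real.exp_add]; ring_nf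
    rw [hKdef, h9]
    ring
  · set Gz : C(ZZ, ℂ) := ⟨fun z => G (γA z.1, γA z.2), by fun_prop⟩ with hGz
    have h10 : ∀ s : ℝ, 0 ≤ s → ‖φ s‖ ≤ ‖dA‖ * ‖dA‖ * ‖Gz‖ * (2 / ρ * (2 / ρ * C)) *
        muZ.real univ * Real.exp (-(2 * a - κ) * s) := by
      intro s hs
      simp only [hφ, hLapp]
      have h11 : ∀ z, ‖Θ ((NormedSpace.exp (s • Λ) * w) z)‖ ≤
          ‖dA‖ * ‖dA‖ * ‖Gz‖ * Real.exp (-(2 * a) * s) *
            (2 / ρ * (2 / ρ * C) * Real.exp (κ * s)) := by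
        intro z
        have h12 : (NormedSpace.exp (s • Λ) * w) z =
            (dA z.1 * dA z.2 * Gz z * cexp (-(s * (γA z.1 + γA z.2)))) •
              (E s * (u z.1 * v z.2)) := by
          rw [ContinuousMap.mul_apply, exp_Lam, hw, vv_apply]
          ext x
          simp only [hEdef, hGz, ContinuousMap.mul_apply, ContinuousMap.coe_mk,
            ContinuousMap.smul_apply, smul_eq_mul]
          ring
        rw [h12, map_smul, smul_eq_mul, norm_mul, norm_mul, norm_mul, norm_mul]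
        have h13 : ‖cexp (-(s * (γA z.1 + γA z.2)))‖ ≤ Real.exp (-(2 * a) * s) := by
          rw [Complex.norm_exp, neg_re, re_ofReal_mul, add_re]
          apply Real.exp_le_exp.2
          have h14 := (hK.arc z.1).1
          have h15 := (hK.arc z.2).1
          nlinarith
        have h16 := bound_two hE hC hρ hε (hS₁ z.1) (hS₂ z.2) (hu z.1) (hv z.2) hs
        gcongr
        · exact dA.norm_coe_le_norm _
        · exact dA.norm_coe_le_norm _
        · exact Gz.norm_coe_le_norm _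
      refine (norm_integral_le_of_norm_le_const (Eventually.of_forall h11)).trans (le_of_eq ?_)
      have h9 : Real.exp (-(2 * a - κ) * s) = Real.exp (κ * s) * Real.exp (-(2 * a) * s) := by
        rw [← Real.exp_add]; ring_nf
      rw [h9]
      ring
    rw [tendsto_zero_iff_norm_tendsto_zero]
    have h8 : Tendsto (fun s : ℝ => ‖dA‖ * ‖dA‖ * ‖Gz‖ * (2 / ρ * (2 / ρ * C)) *
        muZ.real univ * Real.exp (-(2 * a - κ) * s)) atTop
        (𝓝 (‖dA‖ * ‖dA‖ * ‖Gz‖ * (2 / ρ * (2 / ρ * C)) * muZ.real univ * 0)) := by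
      apply Tendsto.const_mul
      apply Real.tendsto_exp_atBot.comp
      exact tendsto_id.const_mul_atTop_of_neg (by linarith)
    rw [mul_zero] at h8
    refine squeeze_zero' (Eventually.of_forall fun _ => norm_nonneg _) ?_ h8
    filter_upwards [eventually_ge_atTop 0] with t ht using h10 t ht

omit [CompactSpace M] in
theorem sep_of_arc {γA dA γL dL γV dV : C(YY, ℂ)} {ρ a : ℝ}
    (hK : Contours γA dA γL dL γV dV ρ a) {X : C(M, ℂ)} (hX : ∀ x, InRect (ρ / 2) (X x)) (y : YY) :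
    Sep X ρ (γA y) := by
  obtain ⟨-, -, -, -, h5⟩ := hK.arc y
  rcases h5 with h5 | h5 | h5
  · refine ⟨I, by simp, by simp, by simp [h5], fun x => ?_⟩
    have := (hX x).2.2.1
    simp only [I_mul_re, I_re, zero_add]
    linarith
  · refine ⟨-I, by simp, by simp, by simp [h5], fun x => ?_⟩
    have := (hX x).2.2.2
    simp only [neg_mul, neg_re, I_mul_re, I_re, neg_neg, neg_zero, zero_add]
    linarith
  · refine ⟨1, by simp, by simp, by simp [h5], fun x => ?_⟩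
    have := (hX x).2.1
    simp only [one_mul, one_re]
    linarith

/-- The main estimate in the algebra of continuous functions. -/
theorem core {ρ a : ℝ} (hρ : 0 < ρ) (ha1 : -ρ < a) (ha2 : a < 1 + ρ)
    (Θ : C(M, ℂ) →L[ℂ] ℂ) (X₁ X₂ : C(M, ℂ)) {κ ε C : ℝ} (hE : ExpBd Θ X₁ X₂ κ ε C) (hC : 0 ≤ C)
    (hε : ε ≤ ρ / 2) (hκ : κ < 2 * a) (hX₁ : ∀ x, InRect (ρ / 2) (X₁ x))
    (hX₂ : ∀ x, InRect (ρ / 2) (X₂ x)) :
    ∃ C' : ℝ, 0 ≤ C' ∧ ∀ G : C(ℂ × ℂ, ℂ), Differentiable ℂ G → ∀ F : C(M, ℂ),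
      (∀ x, F x = G (X₁ x, X₂ x)) → ∀ B : ℝ,
      (∀ w₁ w₂, InRect ρ w₁ → InRect ρ w₂ → (w₁.re ≤ a ∨ w₂.re ≤ a) → ‖G (w₁, w₂)‖ ≤ B) →
      ‖Θ F‖ ≤ C' * B := by
  obtain ⟨γA, dA, γL, dL, γV, dV, hK⟩ := exists_contours hρ ha1 ha2
  have hstrict : ∀ {X : C(M, ℂ)}, (∀ x, InRect (ρ / 2) (X x)) → ∀ x,
      -ρ < (X x).re ∧ (X x).re < 1 + ρ ∧ -ρ < (X x).im ∧ (X x).im < ρ := by
    intro X hX x
    obtain ⟨h1, h2, h3, h4⟩ := hX x
    refine ⟨by linarith, by linarith, by linarith, by linarith⟩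
  have hneA : ∀ {X : C(M, ℂ)}, (∀ x, InRect (ρ / 2) (X x)) → ∀ y x, γA y ≠ X x := by
    intro X hX y x h
    obtain ⟨h1, h2, h3, h4⟩ := hstrict hX x
    obtain ⟨-, -, -, -, h5⟩ := hK.arc y
    rw [h] at h5
    rcases h5 with h5 | h5 | h5 <;> linarith
  have hneL : ∀ {X : C(M, ℂ)}, (∀ x, InRect (ρ / 2) (X x)) → ∀ y x, γL y ≠ X x := by
    intro X hX y x h
    obtain ⟨h1, h2, h3, h4⟩ := hstrict hX x
    obtain ⟨-, -, -, -, h5⟩ := hK.lft y
    rw [h] at h5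
    rcases h5 with h5 | h5 | h5 <;> linarith
  set uA := resC γA X₁ (hneA hX₁) with huA
  set uL := resC γL X₁ (hneL hX₁) with huL
  set vA := resC γA X₂ (hneA hX₂) with hvA
  set vL := resC γL X₂ (hneL hX₂) with hvL
  set c₁ : ℝ := 2 * (‖dA‖ * ‖dV‖ * muY.real univ ^ 2 * (2 / ρ * C)) / (2 * a - κ) with hc₁
  set c₂ : ℝ := ‖dA‖ * ‖dL‖ * (‖uA‖ * ‖vL‖) * muZ.real univ with hc₂
  set c₃ : ℝ := ‖dL‖ * ‖dA‖ * (‖uL‖ * ‖vA‖) * muZ.real univ with hc₃
  set c₄ : ℝ := ‖dL‖ * ‖dL‖ * (‖uL‖ * ‖vL‖) * muZ.real univ with hc₄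
  have hc₁0 : 0 ≤ c₁ := div_nonneg (by positivity) (by linarith)
  have hpi : (2 * Real.pi * I : ℂ) ^ 2 ≠ 0 := pow_ne_zero _ Complex.two_pi_I_ne_zero
  refine ⟨‖((2 * Real.pi * I : ℂ) ^ 2)⁻¹‖ * (c₁ + ‖Θ‖ * (c₂ + (c₃ + c₄))), by positivity, ?_⟩
  intro G hG F hF B hB
  have hAr : ∀ y, InRect ρ (γA y) := fun y => by
    obtain ⟨h1, h2, h3, h4, -⟩ := hK.arc y
    exact ⟨ha1.le.trans h1, h2, h3, h4⟩
  have hLr : ∀ y, InRect ρ (γL y) := fun y => by
    obtain ⟨h1, h2, h3, h4, -⟩ := hK.lft y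
    exact ⟨h1, h2.trans ha2.le, h3, h4⟩
  have key := two_cauchy hK X₁ X₂ (uA := uA) (uL := uL) (vA := vA) (vL := vL)
    (fun _ _ => rfl) (fun _ _ => rfl) (fun _ _ => rfl) (fun _ _ => rfl)
    (hstrict hX₁) (hstrict hX₂) G hG F hF
  have h1 : ‖Θ (∫ z, vv γA dA γA dA uA vA G z ∂muZ)‖ ≤ c₁ * B := by
    refine arc_arc hK hρ ha1 ha2 Θ X₁ X₂ hE hC hε hκ (sep_of_arc hK hX₁) (sep_of_arc hK hX₂)
      (fun y x => ?_) (fun y x => ?_) G hG
      (fun w₁ w₂ h1 h2 h3 => hB w₁ w₂ h1 h2 (Or.inr h3.le))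
      (fun w₁ w₂ h1 h2 h3 => hB w₁ w₂ h1 h2 (Or.inl h3.le))
    · rw [huA, resC_apply]
      exact mul_inv_cancel₀ (sub_ne_zero.2 (hneA hX₁ y x))
    · rw [hvA, resC_apply]
      exact mul_inv_cancel₀ (sub_ne_zero.2 (hneA hX₂ y x))
  have h2 : ‖∫ z, vv γA dA γL dL uA vL G z ∂muZ‖ ≤ c₂ * B :=
    norm_integral_vv_le fun y₁ y₂ => hB _ _ (hAr y₁) (hLr y₂) (Or.inr (hK.lft y₂).2.1)
  have h3 : ‖∫ z, vv γL dL γA dA uL vA G z ∂muZ‖ ≤ c₃ * B :=
    norm_integral_vv_le fun y₁ y₂ => hB _ _ (hLr y₁) (hAr y₂) (Or.inl (hK.lft y₁).2.1)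
  have h4 : ‖∫ z, vv γL dL γL dL uL vL G z ∂muZ‖ ≤ c₄ * B :=
    norm_integral_vv_le fun y₁ y₂ => hB _ _ (hLr y₁) (hLr y₂) (Or.inl (hK.lft y₁).2.1)
  have h5 : F = ((2 * Real.pi * I : ℂ) ^ 2)⁻¹ •
      ((∫ z, vv γA dA γA dA uA vA G z ∂muZ) + ((∫ z, vv γA dA γL dL uA vL G z ∂muZ) +
      ((∫ z, vv γL dL γA dA uL vA G z ∂muZ) + (∫ z, vv γL dL γL dL uL vL G z ∂muZ)))) := by
    rw [← add_assoc, key, smul_smul, inv_mul_cancel₀ hpi, one_smul]
  rw [h5, map_smul, norm_smul, map_add,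
    mul_assoc ‖((2 * Real.pi * I : ℂ) ^ 2)⁻¹‖ (c₁ + ‖Θ‖ * (c₂ + (c₃ + c₄))) B]
  apply mul_le_mul_of_nonneg_left _ (norm_nonneg _)
  refine (norm_add_le _ _).trans ?_
  rw [add_mul]
  apply add_le_add h1
  refine (Θ.le_opNorm _).trans ?_
  rw [mul_assoc]
  apply mul_le_mul_of_nonneg_left _ (norm_nonneg _)
  refine (norm_add_le _ _).trans ?_
  rw [add_mul]
  apply add_le_add h2
  refine (norm_add_le _ _).trans ?_
  rw [add_mul]
  exact add_le_add h3 h4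

end Pool.Agent.MP_564bf3_an
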