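import Pool.Agent.Lib.MP_564bf3_an.Growth

/-!
# The main growth estimate
-/

open Complex Filter Set Asymptotics Bornology
open scoped Topology

noncomputable section

namespace Pool.Agent.MP_564bf3_an

/-- Main growth estimate on the product of two closed half planes. -/
theorem growth_one {f : ℂ → ℂ → ℂ} (hf : GrowthData f) (h : Dec f 1 1) :
    ∃ c : ℝ, 0 < c ∧ ∀ ε : ℝ, 0 < ε → ∃ C : ℝ, 0 < C ∧ ∀ z w : ℂ, 0 ≤ z.re → 0 ≤ w.re →
      ‖f z w‖ ≤ C * Real.exp (-c * min z.re w.re + ε * (‖z‖ + ‖w‖)) := by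
  obtain ⟨r, hr, δ, hδ, C₁, hC₁, h⟩ := h
  refine ⟨δ / 4, by linarith, fun ε hε => ?_⟩
  set M : ℝ := 4 / r + 1 with hM
  have hMpos : 0 < M := by positivity
  have hM1 : 1 ≤ M := by rw [hM]; have : 0 < 4 / r := by positivity
                         linarith
  set e : ℝ := min (ε / 3) (δ / (4 * (2 + M))) with he
  have hepos : 0 < e := lt_min (by linarith) (by positivity)
  have he3 : 3 * e ≤ ε := by
    have : e ≤ ε / 3 := min_le_left _ _
    linarith
  have heM : (2 + M) * e ≤ δ / 4 := by
    have h1 : e ≤ δ / (4 * (2 + M)) := min_le_right _ _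
    rw [le_div_iff₀ (by positivity)] at h1
    linarith
  obtain ⟨A₀, hA₀, hsmall⟩ := hf.small e hepos
  set A := A₀ + C₁ with hA
  have hApos : 0 < A := by positivity
  refine ⟨A, hApos, fun z w hz hw => ?_⟩
  set n := ‖z‖ + ‖w‖ with hn
  have hn0 : 0 ≤ n := by positivity
  set m := min z.re w.re with hm
  have hm0 : 0 ≤ m := le_min hz hw
  have hmz : m ≤ z.re := min_le_left _ _
  have hmw : m ≤ w.re := min_le_right _ _
  have hzn : z.re ≤ ‖z‖ := re_le_norm z
  have hwn : w.re ≤ ‖w‖ := re_le_norm w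
  have hmn : m ≤ n := by
    have := norm_nonneg w
    rw [hn]; linarith
  rcases eq_or_lt_of_le hn0 with hn1 | hnpos
  · have h1 := hsmall z w hz hw
    have h2 : m = 0 := le_antisymm (by linarith) hm0
    rw [← hn, ← hn1] at h1
    rw [h2, ← hn1]
    simp only [mul_zero, add_zero, Real.exp_zero, mul_one] at h1 ⊢
    linarith
  set F : ℂ → ℂ := fun μ => f ((z - m) + μ * 1) ((w - m) + μ * 1) with hF
  have hFd : Differentiable ℂ F := hf.diff (z - m) 1 (w - m) 1
  have hzm : ‖z - (m : ℂ)‖ ≤ ‖z‖ + m := by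
    have := norm_sub_le z (m : ℂ)
    rwa [norm_real, Real.norm_of_nonneg hm0] at this
  have hwm : ‖w - (m : ℂ)‖ ≤ ‖w‖ + m := by
    have := norm_sub_le w (m : ℂ)
    rwa [norm_real, Real.norm_of_nonneg hm0] at this
  have hm2 : 2 * m ≤ n := by rw [hn]; linarith
  -- crude bound
  have hcrude : ∀ μ : ℂ, 0 ≤ μ.re → ‖F μ‖ ≤ A * Real.exp (2 * e * n + 2 * e * ‖μ‖) := by
    intro μ hμ
    have h1 := hsmall ((z - m) + μ * 1) ((w - m) + μ * 1)
      (by simp; linarith) (by simp; linarith)
    refine h1.trans ?_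
    apply mul_le_mul (by linarith) _ (Real.exp_pos _).le hApos.le
    apply Real.exp_le_exp.2
    have h2 : ‖(z - m) + μ * 1‖ ≤ ‖z‖ + m + ‖μ‖ := by
      rw [mul_one]; exact (norm_add_le _ _).trans (by linarith)
    have h3 : ‖(w - m) + μ * 1‖ ≤ ‖w‖ + m + ‖μ‖ := by
      rw [mul_one]; exact (norm_add_le _ _).trans (by linarith)
    have h4 : ‖(z - m) + μ * 1‖ + ‖(w - m) + μ * 1‖ ≤ 2 * n + 2 * ‖μ‖ := by
      rw [hn] at hm2 ⊢
      have := norm_nonneg z
      have := norm_nonneg w
      linarith
    nlinarith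
  -- real axis
  set B : ℝ := 2 * δ / r + 2 * e with hB
  have hreal : ∀ x : ℝ, 0 ≤ x → ‖F x‖ ≤ A * Real.exp (B * n - (δ - 2 * e) * x) := by
    intro x hx
    rcases lt_or_ge (2 * n / r) x with hxx | hxx
    · have hxpos : 0 < x := lt_of_le_of_lt (by positivity) hxx
      have hxne : (x : ℂ) ≠ 0 := by exact_mod_cast hxpos.ne'
      have h1 := h x hx (((z - m) + x) / x) (((w - m) + x) / x) ?_ ?_
      · rw [mul_div_cancel₀ _ hxne, mul_div_cancel₀ _ hxne] at h1
        have h2 : F x = f ((z - m) + x) ((w - m) + x) := by rw [hF]; simp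
        rw [h2]
        refine h1.trans ?_
        apply mul_le_mul (by linarith) _ (Real.exp_pos _).le hApos.le
        apply Real.exp_le_exp.2
        have : 0 ≤ B * n := by positivity
        nlinarith
      · have h2 : ((z - m) + x) / x - 1 = (z - m) / x := by field_simp; ring
        rw [h2, norm_div, norm_real, Real.norm_of_nonneg hx, div_le_iff₀ hxpos]
        rw [div_lt_iff₀ hr] at hxx
        have h3 : ‖z‖ ≤ n := by rw [hn]; linarith [norm_nonneg w]
        nlinarith
      · have h2 : ((w - m) + x) / x - 1 = (w - m) / x := by field_simp; ring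
        rw [h2, norm_div, norm_real, Real.norm_of_nonneg hx, div_le_iff₀ hxpos]
        rw [div_lt_iff₀ hr] at hxx
        have h3 : ‖w‖ ≤ n := by rw [hn]; linarith [norm_nonneg z]
        nlinarith
    · have h1 := hcrude x (by simpa using hx)
      refine h1.trans ?_
      apply mul_le_mul_of_nonneg_left _ hApos.le
      apply Real.exp_le_exp.2
      rw [norm_real, Real.norm_of_nonneg hx]
      have h2 : δ * x ≤ δ * (2 * n / r) := mul_le_mul_of_nonneg_left hxx hδ.le
      have h3 : B * n = δ * (2 * n / r) + 2 * e * n := by rw [hB]; ring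
      rw [h3]
      linarith
  have hBn : 2 * e * n ≤ B * n := by
    have : 0 ≤ 2 * δ / r * n := by positivity
    rw [hB]; nlinarith
  have heδ : 2 * e ≤ δ := by nlinarith
  -- quadrants
  have hquad : ∀ μ : ℂ, 0 ≤ μ.re →
      ‖F μ‖ ≤ A * Real.exp (B * n - (δ - 2 * e) * μ.re + 2 * e * |μ.im|) := by
    intro μ hμ
    rcases le_total 0 μ.im with him | him
    · set g : ℂ → ℂ := fun μ => F μ * cexp (((δ - 2 * e : ℝ) : ℂ) * μ + ((2 * e : ℝ) : ℂ) * (I * μ))
        with hg
      have hgd : Differentiable ℂ g := hFd.mul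
        ((differentiable_id.const_mul _).add ((differentiable_id.const_mul I).const_mul _)).cexp
      have hgn : ∀ μ, ‖g μ‖ = ‖F μ‖ * Real.exp ((δ - 2 * e) * μ.re - 2 * e * μ.im) := by
        intro μ
        rw [hg]; simp only
        rw [norm_mul, Complex.norm_exp, add_re, re_ofReal_mul, re_ofReal_mul, I_mul_re]
        congr 2; ring
      have key := quadrant_one (A := A * Real.exp (2 * e * n)) (B := δ + 2 * e)
        (C := A * Real.exp (B * n)) hgd ?_ ?_ ?_ hμ him
      · rw [hgn] at key
        calc ‖F μ‖ = ‖F μ‖ * Real.exp ((δ - 2 * e) * μ.re - 2 * e * μ.im) *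
              Real.exp (-((δ - 2 * e) * μ.re - 2 * e * μ.im)) := by
              rw [mul_assoc, ← Real.exp_add]; simp
          _ ≤ A * Real.exp (B * n) * Real.exp (-((δ - 2 * e) * μ.re - 2 * e * μ.im)) :=
              mul_le_mul_of_nonneg_right key (Real.exp_pos _).le
          _ = _ := by rw [mul_assoc, ← Real.exp_add, abs_of_nonneg him]; ring_nf
      · intro ν h1 h2
        rw [hgn]
        calc ‖F ν‖ * Real.exp ((δ - 2 * e) * ν.re - 2 * e * ν.im)
            ≤ (A * Real.exp (2 * e * n + 2 * e * ‖ν‖)) *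
              Real.exp ((δ - 2 * e) * ν.re - 2 * e * ν.im) :=
              mul_le_mul_of_nonneg_right (hcrude ν h1) (Real.exp_pos _).le
          _ = A * Real.exp (2 * e * n) * Real.exp (2 * e * ‖ν‖ + (δ - 2 * e) * ν.re
              - 2 * e * ν.im) := by
              rw [mul_assoc A, ← Real.exp_add, mul_assoc A, ← Real.exp_add]; ring_nf
          _ ≤ _ := by
              apply mul_le_mul_of_nonneg_left _ (by positivity)
              apply Real.exp_le_exp.2
              have h3 := re_le_norm ν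
              have h4 : (δ - 2 * e) * ν.re ≤ (δ - 2 * e) * ‖ν‖ :=
                mul_le_mul_of_nonneg_left h3 (by linarith)
              have h5 : 0 ≤ 2 * e * ν.im := by positivity
              have h6 : 0 ≤ 2 * e * ‖ν‖ := by positivity
              linarith
      · intro x hx
        rw [hgn]
        simp only [ofReal_re, ofReal_im, mul_zero, sub_zero]
        calc ‖F x‖ * Real.exp ((δ - 2 * e) * x)
            ≤ (A * Real.exp (B * n - (δ - 2 * e) * x)) * Real.exp ((δ - 2 * e) * x) :=
              mul_le_mul_of_nonneg_right (hreal x hx) (Real.exp_pos _).le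
          _ = _ := by rw [mul_assoc, ← Real.exp_add]; ring_nf
      · intro x hx
        rw [hgn]
        have h1 := hcrude (x * I) (by simp)
        have h2 : ‖(x : ℂ) * I‖ = x := by simp [abs_of_nonneg hx]
        rw [h2] at h1
        have h3 : ((x : ℂ) * I).re = 0 := by simp
        have h4 : ((x : ℂ) * I).im = x := by simp
        rw [h3, h4]
        calc ‖F (x * I)‖ * Real.exp ((δ - 2 * e) * 0 - 2 * e * x)
            ≤ (A * Real.exp (2 * e * n + 2 * e * x)) * Real.exp ((δ - 2 * e) * 0 - 2 * e * x) :=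
              mul_le_mul_of_nonneg_right h1 (Real.exp_pos _).le
          _ = A * Real.exp (2 * e * n) := by rw [mul_assoc, ← Real.exp_add]; ring_nf
          _ ≤ _ := by
              apply mul_le_mul_of_nonneg_left _ hApos.le
              exact Real.exp_le_exp.2 hBn
    · set g : ℂ → ℂ := fun μ => F μ * cexp (((δ - 2 * e : ℝ) : ℂ) * μ - ((2 * e : ℝ) : ℂ) * (I * μ))
        with hg
      have hgd : Differentiable ℂ g := hFd.mul
        ((differentiable_id.const_mul _).sub ((differentiable_id.const_mul I).const_mul _)).cexp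
      have hgn : ∀ μ, ‖g μ‖ = ‖F μ‖ * Real.exp ((δ - 2 * e) * μ.re + 2 * e * μ.im) := by
        intro μ
        rw [hg]; simp only
        rw [norm_mul, Complex.norm_exp, sub_re, re_ofReal_mul, re_ofReal_mul, I_mul_re]
        congr 2; ring
      have key := quadrant_four (A := A * Real.exp (2 * e * n)) (B := δ + 2 * e)
        (C := A * Real.exp (B * n)) hgd ?_ ?_ ?_ hμ him
      · rw [hgn] at key
        calc ‖F μ‖ = ‖F μ‖ * Real.exp ((δ - 2 * e) * μ.re + 2 * e * μ.im) *
              Real.exp (-((δ - 2 * e) * μ.re + 2 * e * μ.im)) := by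
              rw [mul_assoc, ← Real.exp_add]; simp
          _ ≤ A * Real.exp (B * n) * Real.exp (-((δ - 2 * e) * μ.re + 2 * e * μ.im)) :=
              mul_le_mul_of_nonneg_right key (Real.exp_pos _).le
          _ = _ := by rw [mul_assoc, ← Real.exp_add, abs_of_nonpos him]; ring_nf
      · intro ν h1 h2
        rw [hgn]
        calc ‖F ν‖ * Real.exp ((δ - 2 * e) * ν.re + 2 * e * ν.im)
            ≤ (A * Real.exp (2 * e * n + 2 * e * ‖ν‖)) *
              Real.exp ((δ - 2 * e) * ν.re + 2 * e * ν.im) :=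
              mul_le_mul_of_nonneg_right (hcrude ν h1) (Real.exp_pos _).le
          _ = A * Real.exp (2 * e * n) * Real.exp (2 * e * ‖ν‖ + (δ - 2 * e) * ν.re
              + 2 * e * ν.im) := by
              rw [mul_assoc A, ← Real.exp_add, mul_assoc A, ← Real.exp_add]; ring_nf
          _ ≤ _ := by
              apply mul_le_mul_of_nonneg_left _ (by positivity)
              apply Real.exp_le_exp.2
              have h3 := re_le_norm ν
              have h4 : (δ - 2 * e) * ν.re ≤ (δ - 2 * e) * ‖ν‖ :=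
                mul_le_mul_of_nonneg_left h3 (by linarith)
              have h5 : 2 * e * ν.im ≤ 0 := mul_nonpos_of_nonneg_of_nonpos (by positivity) h2
              have h6 : 0 ≤ 2 * e * ‖ν‖ := by positivity
              linarith
      · intro x hx
        rw [hgn]
        simp only [ofReal_re, ofReal_im, mul_zero, add_zero]
        calc ‖F x‖ * Real.exp ((δ - 2 * e) * x)
            ≤ (A * Real.exp (B * n - (δ - 2 * e) * x)) * Real.exp ((δ - 2 * e) * x) :=
              mul_le_mul_of_nonneg_right (hreal x hx) (Real.exp_pos _).le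
          _ = _ := by rw [mul_assoc, ← Real.exp_add]; ring_nf
      · intro x hx
        rw [hgn]
        have h1 := hcrude (x * I) (by simp)
        have h2 : ‖(x : ℂ) * I‖ = -x := by simp [abs_of_nonpos hx]
        rw [h2] at h1
        have h3 : ((x : ℂ) * I).re = 0 := by simp
        have h4 : ((x : ℂ) * I).im = x := by simp
        rw [h3, h4]
        calc ‖F (x * I)‖ * Real.exp ((δ - 2 * e) * 0 + 2 * e * x)
            ≤ (A * Real.exp (2 * e * n + 2 * e * -x)) * Real.exp ((δ - 2 * e) * 0 + 2 * e * x) :=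
              mul_le_mul_of_nonneg_right h1 (Real.exp_pos _).le
          _ = A * Real.exp (2 * e * n) := by rw [mul_assoc, ← Real.exp_add]; ring_nf
          _ ≤ _ := by
              apply mul_le_mul_of_nonneg_left _ hApos.le
              exact Real.exp_le_exp.2 hBn
  -- the strip
  set κ : ℝ := e / n with hκ
  have hκpos : 0 < κ := by positivity
  have hκn : κ * n = e := by rw [hκ]; field_simp
  have hsq : ∀ y : ℝ, 2 * e * |y| - κ * y ^ 2 ≤ e * n := by
    intro y
    have h1 : 0 ≤ κ * (|y| - n) ^ 2 := by positivity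
    have h2 : κ * (|y| - n) ^ 2 = κ * y ^ 2 - 2 * (κ * n) * |y| + (κ * n) * n := by
      rw [← sq_abs y]; ring
    rw [h2, hκn] at h1
    linarith
  set P : ℂ → ℂ := fun μ => F μ * cexp (((δ / 4 : ℝ) : ℂ) * μ + (κ : ℂ) * (μ ^ 2)) with hP
  have hPd : Differentiable ℂ P := hFd.mul
    ((differentiable_id.const_mul _).add ((differentiable_id.pow 2).const_mul _)).cexp
  have hPn : ∀ μ, ‖P μ‖ = ‖F μ‖ * Real.exp (δ / 4 * μ.re + κ * (μ.re ^ 2 - μ.im ^ 2)) := by
    intro μ
    rw [hP]; simp only
    rw [norm_mul, Complex.norm_exp, add_re, re_ofReal_mul, re_ofReal_mul]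
    congr 3
    rw [sq, mul_re]; ring
  have hMn : 0 ≤ M * n := by positivity
  have key := strip_bound (a := 0) (b := M * n) (C := A * Real.exp (3 * e * n))
    (D := A * Real.exp (2 * e * n + 2 * e * (M * n) + δ / 4 * (M * n) + κ * (M * n) ^ 2 + e * n))
    (z := (m : ℂ)) hPd ?_ ?_ ?_ (by simpa using hm0) (by rw [ofReal_re]; nlinarith)
  · rw [hPn, ofReal_re, ofReal_im] at key
    have h1 : F m = f z w := by rw [hF]; simp
    rw [h1] at key
    calc ‖f z w‖ = ‖f z w‖ * Real.exp (δ / 4 * m + κ * (m ^ 2 - 0 ^ 2)) *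
          Real.exp (-(δ / 4 * m + κ * (m ^ 2 - 0 ^ 2))) := by
          rw [mul_assoc, ← Real.exp_add]; simp
      _ ≤ A * Real.exp (3 * e * n) * Real.exp (-(δ / 4 * m + κ * (m ^ 2 - 0 ^ 2))) :=
          mul_le_mul_of_nonneg_right key (Real.exp_pos _).le
      _ = A * Real.exp (3 * e * n - (δ / 4 * m + κ * m ^ 2)) := by
          rw [mul_assoc, ← Real.exp_add]; ring_nf
      _ ≤ _ := by
          apply mul_le_mul_of_nonneg_left _ hApos.le
          apply Real.exp_le_exp.2
          have h2 : 0 ≤ κ * m ^ 2 := by positivity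
          have h3 : 3 * e * n ≤ ε * n := mul_le_mul_of_nonneg_right he3 hn0
          linarith
  · intro μ h1 h2
    rw [hPn]
    have h3 : ‖μ‖ ≤ M * n + |μ.im| := by
      refine (norm_le_abs_re_add_abs_im μ).trans ?_
      rw [abs_of_nonneg h1]; linarith
    calc ‖F μ‖ * Real.exp (δ / 4 * μ.re + κ * (μ.re ^ 2 - μ.im ^ 2))
        ≤ (A * Real.exp (2 * e * n + 2 * e * ‖μ‖)) *
          Real.exp (δ / 4 * μ.re + κ * (μ.re ^ 2 - μ.im ^ 2)) :=
          mul_le_mul_of_nonneg_right (hcrude μ h1) (Real.exp_pos _).le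
      _ = A * Real.exp (2 * e * n + 2 * e * ‖μ‖ + (δ / 4 * μ.re + κ * (μ.re ^ 2 - μ.im ^ 2))) := by
          rw [mul_assoc, ← Real.exp_add]
      _ ≤ _ := by
          apply mul_le_mul_of_nonneg_left _ hApos.le
          apply Real.exp_le_exp.2
          have h4 := hsq μ.im
          have h5 : 2 * e * ‖μ‖ ≤ 2 * e * (M * n + |μ.im|) :=
            mul_le_mul_of_nonneg_left h3 (by positivity)
          have h6 : δ / 4 * μ.re ≤ δ / 4 * (M * n) := mul_le_mul_of_nonneg_left h2 (by positivity)
          have h7 : κ * μ.re ^ 2 ≤ κ * (M * n) ^ 2 :=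
            mul_le_mul_of_nonneg_left (pow_le_pow_left₀ h1 h2 2) hκpos.le
          linarith
  · intro μ h1
    rw [hPn, h1]
    have h3 : ‖μ‖ ≤ |μ.im| := by
      refine (norm_le_abs_re_add_abs_im μ).trans ?_
      rw [h1]; simp
    calc ‖F μ‖ * Real.exp (δ / 4 * 0 + κ * (0 ^ 2 - μ.im ^ 2))
        ≤ (A * Real.exp (2 * e * n + 2 * e * ‖μ‖)) *
          Real.exp (δ / 4 * 0 + κ * (0 ^ 2 - μ.im ^ 2)) :=
          mul_le_mul_of_nonneg_right (hcrude μ h1.ge) (Real.exp_pos _).le
      _ = A * Real.exp (2 * e * n + 2 * e * ‖μ‖ + (δ / 4 * 0 + κ * (0 ^ 2 - μ.im ^ 2))) := by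
          rw [mul_assoc, ← Real.exp_add]
      _ ≤ _ := by
          apply mul_le_mul_of_nonneg_left _ hApos.le
          apply Real.exp_le_exp.2
          have h4 := hsq μ.im
          have h5 : 2 * e * ‖μ‖ ≤ 2 * e * |μ.im| := mul_le_mul_of_nonneg_left h3 (by positivity)
          linarith
  · intro μ h1
    rw [hPn, h1]
    calc ‖F μ‖ * Real.exp (δ / 4 * (M * n) + κ * ((M * n) ^ 2 - μ.im ^ 2))
        ≤ (A * Real.exp (B * n - (δ - 2 * e) * μ.re + 2 * e * |μ.im|)) *
          Real.exp (δ / 4 * (M * n) + κ * ((M * n) ^ 2 - μ.im ^ 2)) :=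
          mul_le_mul_of_nonneg_right (hquad μ (by rw [h1]; exact hMn)) (Real.exp_pos _).le
      _ = A * Real.exp (B * n - (δ - 2 * e) * (M * n) + 2 * e * |μ.im| +
          (δ / 4 * (M * n) + κ * ((M * n) ^ 2 - μ.im ^ 2))) := by
          rw [mul_assoc, ← Real.exp_add, h1]
      _ ≤ _ := by
          apply mul_le_mul_of_nonneg_left _ hApos.le
          apply Real.exp_le_exp.2
          have h4 := hsq μ.im
          have h5 : κ * (M * n) ^ 2 = e * M * (M * n) := by
            calc κ * (M * n) ^ 2 = (κ * n) * M * (M * n) := by ring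
              _ = _ := by rw [hκn]
          have h6 : B * n ≤ δ / 2 * (M * n) + 2 * e * n := by
            have h7 : B = δ / 2 * (4 / r) + 2 * e := by rw [hB]; ring
            rw [h7, hM]
            nlinarith [mul_pos hδ hnpos]
          have h8 : (2 + M) * e * (M * n) ≤ δ / 4 * (M * n) := mul_le_mul_of_nonneg_right heM hMn
          nlinarith

end Pool.Agent.MP_564bf3_an
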