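import Pool.Agent.Lib.MP_564bf3_an.Ext
import Pool.Agent.Lib.MP_564bf3_an.CoreB
import Pool.Agent.Lib.MP_564bf3_an.GrowthB

/-!
# Cutting off a vertex of the real unit square
-/

open Complex Filter Set
open scoped Topology

noncomputable section

namespace Pool.Agent.MP_564bf3_an

variable {E : Type*} [NormedAddCommGroup E] [NormedSpace ℂ E]

/-- Holomorphic coordinates with values in `ℂ²`. -/
structure Coord (E : Type*) [NormedAddCommGroup E] [NormedSpace ℂ E] where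
  /-- first coordinate -/
  X₁ : E → ℂ
  /-- second coordinate -/
  X₂ : E → ℂ
  /-- inverse -/
  m : ℂ × ℂ → E
  dX₁ : Differentiable ℂ X₁
  dX₂ : Differentiable ℂ X₂
  dm : Differentiable ℂ m
  X₁m : ∀ w, X₁ (m w) = w.1
  X₂m : ∀ w, X₂ (m w) = w.2
  mX : ∀ x, m (X₁ x, X₂ x) = x

namespace Coord

variable (c : Coord E)

/-- The exponentials. -/
def ex (z w : ℂ) : holo (univ : Set E) :=
  ⟨fun x => cexp (z * c.X₁ x + w * c.X₂ x),
    (((c.dX₁.const_mul z).add (c.dX₂.const_mul w)).cexp).differentiableOn⟩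

/-- The real unit square in the given coordinates. -/
def sq : Set E := {x | (c.X₁ x).im = 0 ∧ 0 ≤ (c.X₁ x).re ∧ (c.X₁ x).re ≤ 1 ∧
  (c.X₂ x).im = 0 ∧ 0 ≤ (c.X₂ x).re ∧ (c.X₂ x).re ≤ 1}

/-- The closed polyrectangles. -/
def box (ρ : ℝ) : Set E := {x | InRect ρ (c.X₁ x) ∧ InRect ρ (c.X₂ x)}

theorem isCompact_rect (ρ : ℝ) : IsCompact {w : ℂ | InRect ρ w} := by
  have h1 : IsCompact (Icc (-ρ) (1 + ρ) ×ℂ Icc (-ρ) ρ) := isCompact_Icc.reProdIm isCompact_Icc
  convert h1 using 1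
  ext w
  simp only [InRect, mem_ofPred_eq, mem_reProdIm, mem_Icc]
  tauto

theorem isCompact_box (ρ : ℝ) : IsCompact (c.box ρ) := by
  have h1 : c.box ρ = c.m '' ({w : ℂ | InRect ρ w} ×ˢ {w : ℂ | InRect ρ w}) := by
    ext x
    constructor
    · intro hx
      exact ⟨(c.X₁ x, c.X₂ x), ⟨hx.1, hx.2⟩, c.mX x⟩
    · rintro ⟨w, ⟨h1, h2⟩, rfl⟩
      refine ⟨?_, ?_⟩
      · rw [c.X₁m]; exact h1
      · rw [c.X₂m]; exact h2
  rw [h1]
  exact ((isCompact_rect ρ).prod (isCompact_rect ρ)).image c.dm.continuous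

theorem exists_bound {T : holo (univ : Set E) →ₗ[ℂ] ℂ} (hT : Carr T c.sq) {ρ : ℝ} (hρ : 0 < ρ) :
    ∃ C : ℝ, 0 < C ∧ ∀ (u : holo (univ : Set E)) (B : ℝ), 0 ≤ B →
      (∀ x ∈ c.box ρ, ‖(u : E → ℂ) x‖ ≤ B) → ‖T u‖ ≤ C * B := by
  have c1 := c.dX₁.continuous
  have c2 := c.dX₂.continuous
  set ω : Set E := {x | (-ρ < (c.X₁ x).re ∧ (c.X₁ x).re < 1 + ρ ∧ -ρ < (c.X₁ x).im ∧
    (c.X₁ x).im < ρ) ∧ (-ρ < (c.X₂ x).re ∧ (c.X₂ x).re < 1 + ρ ∧ -ρ < (c.X₂ x).im ∧
    (c.X₂ x).im < ρ)} with hω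
  have hopen : IsOpen ω := by
    refine IsOpen.and ?_ ?_
    · refine (isOpen_lt continuous_const (continuous_re.comp c1)).and
        ((isOpen_lt (continuous_re.comp c1) continuous_const).and
        ((isOpen_lt continuous_const (continuous_im.comp c1)).and
        (isOpen_lt (continuous_im.comp c1) continuous_const)))
    · refine (isOpen_lt continuous_const (continuous_re.comp c2)).and
        ((isOpen_lt (continuous_re.comp c2) continuous_const).and
        ((isOpen_lt continuous_const (continuous_im.comp c2)).and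
        (isOpen_lt (continuous_im.comp c2) continuous_const)))
  have hsub : c.sq ⊆ ω := by
    rintro x ⟨h1, h2, h3, h4, h5, h6⟩
    refine ⟨⟨by linarith, by linarith, by linarith, by linarith⟩,
      ⟨by linarith, by linarith, by linarith, by linarith⟩⟩
  obtain ⟨M, -, hMω, C, hC⟩ := hT ω hopen hsub
  refine ⟨max C 1, lt_max_of_lt_right one_pos, fun u B hB hu => ?_⟩
  refine (hC u B hB fun x hx => hu x ?_).trans
    (mul_le_mul_of_nonneg_right (le_max_left _ _) hB)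
  obtain ⟨⟨h1, h2, h3, h4⟩, ⟨h5, h6, h7, h8⟩⟩ := hMω hx
  exact ⟨⟨h1.le, h2.le, h3.le, h4.le⟩, ⟨h5.le, h6.le, h7.le, h8.le⟩⟩

/-- The first coordinate on a compact set. -/
def C₁ (M : Set E) : C(M, ℂ) := ⟨fun x => c.X₁ x, c.dX₁.continuous.comp continuous_subtype_val⟩
/-- The second coordinate on a compact set. -/
def C₂ (M : Set E) : C(M, ℂ) := ⟨fun x => c.X₂ x, c.dX₂.continuous.comp continuous_subtype_val⟩

theorem restL_ex (M : Set E) [CompactSpace M] (z w : ℂ) :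
    restL M (c.ex z w) = NormedSpace.exp (z • c.C₁ M + w • c.C₂ M) := by
  ext x
  rw [exp_apply]
  rfl

/-- The normalised Fourier–Borel transform. -/
def tr (T : holo (univ : Set E) →ₗ[ℂ] ℂ) (z w : ℂ) : ℂ := cexp (-(z + w)) * T (c.ex z w)

theorem re_mul_le {ρ : ℝ} (hρ : 0 < ρ) {X z : ℂ} (hX : InRect ρ X) (hz : 0 ≤ z.re) :
    (z * X).re ≤ z.re + 2 * ρ * ‖z‖ := by
  obtain ⟨h1, h2, h3, h4⟩ := hX
  rw [mul_re]
  have h5 : z.re * X.re ≤ z.re * (1 + ρ) := mul_le_mul_of_nonneg_left h2 hz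
  have h6 : |z.im * X.im| ≤ ‖z‖ * ρ := by
    rw [abs_mul]
    exact mul_le_mul (abs_im_le_norm z) (abs_le.2 ⟨h3, h4⟩) (abs_nonneg _) (norm_nonneg _)
  have h7 := (abs_le.1 h6).1
  have h8 : z.re * ρ ≤ ‖z‖ * ρ := mul_le_mul_of_nonneg_right (re_le_norm z) hρ.le
  linarith

theorem growthData {T : holo (univ : Set E) →ₗ[ℂ] ℂ} (hT : Carr T c.sq) :
    GrowthData (c.tr T) where
  diff := by
    intro p q r s
    obtain ⟨C, -, hC⟩ := c.exists_bound hT one_pos
    have : CompactSpace (c.box 1) := isCompact_iff_compactSpace.1 (c.isCompact_box 1)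
    obtain ⟨Θ, hΘ⟩ := exists_ext hC
    have h1 : ∀ μ : ℂ, c.tr T (p + μ * q) (r + μ * s) = cexp (-((p + μ * q) + (r + μ * s))) *
        Θ (NormedSpace.exp (μ • (q • c.C₁ (c.box 1) + s • c.C₂ (c.box 1))) *
          NormedSpace.exp (p • c.C₁ (c.box 1) + r • c.C₂ (c.box 1))) := by
      intro μ
      rw [tr, ← hΘ, restL_ex, ← NormedSpace.exp_add]
      congr 3
      module
    simp only [h1]
    refine Differentiable.mul (by fun_prop) ?_
    intro μ
    have h2 := (hasDerivAt_exp_smul_const (q • c.C₁ (c.box 1) + s • c.C₂ (c.box 1)) μ).mul_const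
      (NormedSpace.exp (p • c.C₁ (c.box 1) + r • c.C₂ (c.box 1)))
    exact (Θ.hasFDerivAt.comp_hasDerivAt μ h2).differentiableAt
  small := by
    intro ε hε
    obtain ⟨C, hC0, hC⟩ := c.exists_bound hT (ρ := ε / 2) (by positivity)
    refine ⟨C, hC0, fun z w hz hw => ?_⟩
    have h1 := hC (c.ex z w) (Real.exp (z.re + w.re + ε * (‖z‖ + ‖w‖))) (Real.exp_pos _).le ?_
    · rw [tr, norm_mul, Complex.norm_exp]
      calc Real.exp (-(z + w)).re * ‖T (c.ex z w)‖
          ≤ Real.exp (-(z + w)).re * (C * Real.exp (z.re + w.re + ε * (‖z‖ + ‖w‖))) :=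
            mul_le_mul_of_nonneg_left h1 (Real.exp_pos _).le
        _ = C * Real.exp (ε * (‖z‖ + ‖w‖)) := by
            rw [mul_left_comm, ← Real.exp_add, neg_re, add_re]; ring_nf
    · intro x hx
      change ‖cexp (z * c.X₁ x + w * c.X₂ x)‖ ≤ _
      rw [Complex.norm_exp]
      apply Real.exp_le_exp.2
      rw [add_re]
      have h2 := re_mul_le (by positivity) hx.1 hz
      have h3 := re_mul_le (by positivity) hx.2 hw
      linarith

theorem dec_of_carr {T : holo (univ : Set E) →ₗ[ℂ] ℂ} {L : Set E} (hL : IsCompact L)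
    (hT : Carr T L) {a b : ℂ} (h : ∀ x ∈ L, (a * c.X₁ x + b * c.X₂ x).re < (a + b).re) :
    Dec (c.tr T) a b := by
  have c1 := c.dX₁.continuous
  have c2 := c.dX₂.continuous
  have hcont : Continuous fun x => (a * c.X₁ x + b * c.X₂ x).re := by fun_prop
  -- a uniform gap
  obtain ⟨δ, hδ, hgap⟩ : ∃ δ : ℝ, 0 < δ ∧ ∀ x ∈ L,
      (a * c.X₁ x + b * c.X₂ x).re < (a + b).re - 3 * δ := by
    rcases L.eq_empty_or_nonempty with rfl | hne
    · exact ⟨1, one_pos, fun x hx => absurd hx (notMem_empty x)⟩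
    obtain ⟨x₀, hx₀, hmax⟩ := hL.exists_isMaxOn hne hcont.continuousOn
    refine ⟨((a + b).re - (a * c.X₁ x₀ + b * c.X₂ x₀).re) / 6, by linarith [h x₀ hx₀],
      fun x hx => ?_⟩
    have h1 : (a * c.X₁ x + b * c.X₂ x).re ≤ (a * c.X₁ x₀ + b * c.X₂ x₀).re := hmax hx
    linarith [h x₀ hx₀]
  obtain ⟨M, hM, hMω, C, hC⟩ := hT _ (isOpen_lt hcont continuous_const) hgap
  obtain ⟨R, hR⟩ : ∃ R : ℝ, ∀ x ∈ M, ‖c.X₁ x‖ + ‖c.X₂ x‖ ≤ R := by
    have h2 := hM.bddAbove_image (f := fun x => ‖c.X₁ x‖ + ‖c.X₂ x‖)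
      (by fun_prop : Continuous fun x => ‖c.X₁ x‖ + ‖c.X₂ x‖).continuousOn
    obtain ⟨R, hR⟩ := h2
    exact ⟨R, fun x hx => hR ⟨x, hx, rfl⟩⟩
  set R' : ℝ := max R 0 with hR'
  have hR'0 : 0 ≤ R' := le_max_right _ _
  set r : ℝ := 2 * δ / (R' + 2) with hr
  have hrpos : 0 < r := by positivity
  have hrR : r * (R' + 2) = 2 * δ := by rw [hr]; field_simp
  refine ⟨r, hrpos, δ, hδ, max C 1, lt_max_of_lt_right one_pos, fun t ht z w hz hw => ?_⟩
  have h3 := hC (c.ex (t * z) (t * w))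
    (Real.exp (t * ((a + b).re - 3 * δ + r * R'))) (Real.exp_pos _).le ?_
  · rw [tr, norm_mul, Complex.norm_exp]
    have h4 : (-(t * z + t * w)).re ≤ t * (-(a + b).re + 2 * r) := by
      have h5 := abs_re_le_norm (z - a)
      have h6 := abs_re_le_norm (w - b)
      have h7 := (abs_le.1 (h5.trans hz)).1
      have h8 := (abs_le.1 (h6.trans hw)).1
      rw [sub_re] at h7 h8
      rw [neg_re, add_re, re_ofReal_mul, re_ofReal_mul, add_re]
      nlinarith
    calc Real.exp (-(t * z + t * w)).re * ‖T (c.ex (t * z) (t * w))‖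
        ≤ Real.exp (t * (-(a + b).re + 2 * r)) *
          (max C 1 * Real.exp (t * ((a + b).re - 3 * δ + r * R'))) := by
          apply mul_le_mul (Real.exp_le_exp.2 h4) _ (norm_nonneg _) (Real.exp_pos _).le
          exact h3.trans (mul_le_mul_of_nonneg_right (le_max_left _ _) (Real.exp_pos _).le)
      _ = max C 1 * Real.exp (-δ * t) := by
          rw [mul_left_comm, ← Real.exp_add]
          congr 2
          linear_combination t * hrR
  · intro x hx
    change ‖cexp (t * z * c.X₁ x + t * w * c.X₂ x)‖ ≤ _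
    rw [Complex.norm_exp]
    apply Real.exp_le_exp.2
    have h9 : (a * c.X₁ x + b * c.X₂ x).re < (a + b).re - 3 * δ := hMω hx
    have h10 : (t * z * c.X₁ x + t * w * c.X₂ x).re =
        t * ((a * c.X₁ x + b * c.X₂ x).re + ((z - a) * c.X₁ x + (w - b) * c.X₂ x).re) := by
      rw [← add_re, ← re_ofReal_mul]
      congr 1
      ring
    rw [h10]
    have h11 : ((z - a) * c.X₁ x + (w - b) * c.X₂ x).re ≤ r * R' := by
      refine (re_le_norm _).trans ((norm_add_le _ _).trans ?_)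
      rw [norm_mul, norm_mul]
      have h12 : ‖z - a‖ * ‖c.X₁ x‖ ≤ r * ‖c.X₁ x‖ :=
        mul_le_mul_of_nonneg_right hz (norm_nonneg _)
      have h13 : ‖w - b‖ * ‖c.X₂ x‖ ≤ r * ‖c.X₂ x‖ :=
        mul_le_mul_of_nonneg_right hw (norm_nonneg _)
      have h14 : r * (‖c.X₁ x‖ + ‖c.X₂ x‖) ≤ r * R' :=
        mul_le_mul_of_nonneg_left ((hR x hx).trans (le_max_left _ _)) hrpos.le
      linarith
    exact mul_le_mul_of_nonneg_left (by linarith) ht

/-- The truncated square. -/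
def cut (a : ℝ) : Set E := {x ∈ c.sq | (c.X₁ x).re + (c.X₂ x).re ≤ 1 + a}

theorem exists_rho {a : ℝ} (ha : 0 ≤ a) {ω : Set E} (hω : IsOpen ω) (h : c.cut a ⊆ ω) :
    ∃ ρ : ℝ, 0 < ρ ∧ ∀ w₁ w₂, InRect ρ w₁ → InRect ρ w₂ → (w₁.re ≤ a ∨ w₂.re ≤ a) →
      c.m (w₁, w₂) ∈ ω := by
  set K : Set (ℂ × ℂ) := {w | (w.1.im = 0 ∧ 0 ≤ w.1.re ∧ w.1.re ≤ 1 ∧
    w.2.im = 0 ∧ 0 ≤ w.2.re ∧ w.2.re ≤ 1) ∧ w.1.re + w.2.re ≤ 1 + a} with hK
  have hclosed : IsClosed K := by
    have i1 : Continuous fun w : ℂ × ℂ => w.1.re := continuous_re.comp continuous_fst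
    have i2 : Continuous fun w : ℂ × ℂ => w.1.im := continuous_im.comp continuous_fst
    have i3 : Continuous fun w : ℂ × ℂ => w.2.re := continuous_re.comp continuous_snd
    have i4 : Continuous fun w : ℂ × ℂ => w.2.im := continuous_im.comp continuous_snd
    refine IsClosed.and ((isClosed_eq i2 continuous_const).and
      ((isClosed_le continuous_const i1).and ((isClosed_le i1 continuous_const).and
      ((isClosed_eq i4 continuous_const).and ((isClosed_le continuous_const i3).and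
      (isClosed_le i3 continuous_const)))))) (isClosed_le (i1.add i3) continuous_const)
  have hcomp : IsCompact K := by
    refine ((isCompact_rect 1).prod (isCompact_rect 1)).of_isClosed_subset hclosed ?_
    rintro w ⟨⟨h1, h2, h3, h4, h5, h6⟩, -⟩
    exact ⟨⟨by linarith, by linarith, by linarith, by linarith⟩,
      ⟨by linarith, by linarith, by linarith, by linarith⟩⟩
  have hsub : K ⊆ c.m ⁻¹' ω := by
    rintro w ⟨h1, h2⟩
    apply h
    refine ⟨?_, ?_⟩
    · change (c.X₁ (c.m w)).im = 0 ∧ _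
      simp only [c.X₁m, c.X₂m]
      exact h1
    · rw [c.X₁m, c.X₂m]
      exact h2
  obtain ⟨δ, hδ, hδ2⟩ := hcomp.exists_cthickening_subset_open (hω.preimage c.dm.continuous) hsub
  refine ⟨δ / 2, by positivity, fun w₁ w₂ h1 h2 h3 => ?_⟩
  have key : ∀ w : ℂ, InRect (δ / 2) w → 0 ≤ max 0 (min w.re 1) ∧ max 0 (min w.re 1) ≤ 1 ∧
      ‖w - (max 0 (min w.re 1) : ℝ)‖ ≤ δ := by
    rintro w ⟨g1, g2, g3, g4⟩
    refine ⟨le_max_left _ _, max_le zero_le_one (min_le_right _ _), ?_⟩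
    refine (norm_le_abs_re_add_abs_im _).trans ?_
    rw [sub_re, sub_im, ofReal_re, ofReal_im, sub_zero]
    have g5 : |w.im| ≤ δ / 2 := abs_le.2 ⟨g3, g4⟩
    have g6 : |w.re - max 0 (min w.re 1)| ≤ δ / 2 := by
      rw [abs_le]
      rcases le_total w.re 1 with g7 | g7
      · rw [min_eq_left g7]
        rcases le_total 0 w.re with g8 | g8
        · rw [max_eq_right g8]; constructor <;> linarith
        · rw [max_eq_left g8]; constructor <;> linarith
      · rw [min_eq_right g7, max_eq_right zero_le_one]; constructor <;> linarith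
    linarith
  obtain ⟨p1, p2, p3⟩ := key w₁ h1
  obtain ⟨q1, q2, q3⟩ := key w₂ h2
  apply hδ2
  refine Metric.mem_cthickening_of_dist_le (w₁, w₂)
    (((max 0 (min w₁.re 1) : ℝ) : ℂ), ((max 0 (min w₂.re 1) : ℝ) : ℂ)) δ K ?_ ?_
  · refine ⟨⟨by simp, by simp, by simp, by simp, by simp, by simp⟩, ?_⟩
    change max 0 (min w₁.re 1) + max 0 (min w₂.re 1) ≤ 1 + a
    rcases h3 with h3 | h3
    · have : max 0 (min w₁.re 1) ≤ a := max_le ha ((min_le_left _ _).trans h3)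
      linarith
    · have : max 0 (min w₂.re 1) ≤ a := max_le ha ((min_le_left _ _).trans h3)
      linarith
  · rw [Prod.dist_eq, dist_eq_norm, dist_eq_norm]
    exact max_le p3 q3

/-- Cutting off the vertex. -/
theorem exists_cut {T : holo (univ : Set E) →ₗ[ℂ] ℂ} (hT : Carr T c.sq) {L : Set E}
    (hL : IsCompact L) (hTL : Carr T L) {a₀ b₀ : ℂ} (ha₀ : 0 < a₀.re) (hb₀ : 0 < b₀.re)
    (h : ∀ x ∈ L, (a₀ * c.X₁ x + b₀ * c.X₂ x).re < (a₀ + b₀).re) :
    ∃ a : ℝ, 0 ≤ a ∧ a < 1 ∧ Carr T (c.cut a) := by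
  have hgd := c.growthData hT
  obtain ⟨δ, hδ, hgr⟩ := growth_one hgd (dec_one hgd ha₀ hb₀ (c.dec_of_carr hL hTL h))
  set a : ℝ := max (1 / 2) (1 - δ / 4) with ha
  have ha0 : 0 ≤ a := le_max_of_le_left (by norm_num)
  have ha1 : a < 1 := max_lt (by norm_num) (by linarith)
  have haδ : 1 - δ / 4 ≤ a := le_max_right _ _
  refine ⟨a, ha0, ha1, fun ω hω hK => ?_⟩
  obtain ⟨ρ, hρ, hρω⟩ := c.exists_rho ha0 hω hK
  set ε : ℝ := min (δ / 8) (ρ / 2) with hε
  have hεpos : 0 < ε := lt_min (by linarith) (by linarith)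
  have hε1 : ε ≤ δ / 8 := min_le_left _ _
  have hε2 : ε ≤ ρ / 2 := min_le_right _ _
  obtain ⟨C, hC, hb⟩ := c.exists_bound hT (ρ := ρ / 2) (by positivity)
  set M : Set E := c.box (ρ / 2) with hM
  have hMc : CompactSpace M := isCompact_iff_compactSpace.1 (c.isCompact_box (ρ / 2))
  obtain ⟨Θ, hΘ⟩ := exists_ext hb
  obtain ⟨C₁, hC₁, hg⟩ := hgr ε hεpos
  have hE : ExpBd Θ (c.C₁ M) (c.C₂ M) (2 - δ + 2 * ε) ε C₁ := by
    intro s hs l₁ l₂ h1 h2
    rw [← restL_ex, hΘ]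
    have h3 := hg (s + l₁) (s + l₂) (by simp; linarith) (by simp; linarith)
    have h4 : T (c.ex (s + l₁) (s + l₂)) =
        cexp ((s + l₁) + (s + l₂)) * c.tr T (s + l₁) (s + l₂) := by
      rw [tr, ← mul_assoc, ← Complex.exp_add, add_neg_cancel, Complex.exp_zero, one_mul]
    rw [h4, norm_mul, Complex.norm_exp]
    calc Real.exp ((s + l₁) + (s + l₂) : ℂ).re * ‖c.tr T (s + l₁) (s + l₂)‖
        ≤ Real.exp ((s + l₁) + (s + l₂) : ℂ).re * (C₁ * Real.exp
          (-δ * min ((s : ℂ) + l₁).re ((s : ℂ) + l₂).re + ε * (‖(s : ℂ) + l₁‖ + ‖(s : ℂ) + l₂‖))) :=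
          mul_le_mul_of_nonneg_left h3 (Real.exp_pos _).le
      _ = C₁ * Real.exp (((s + l₁) + (s + l₂) : ℂ).re +
          (-δ * min ((s : ℂ) + l₁).re ((s : ℂ) + l₂).re +
            ε * (‖(s : ℂ) + l₁‖ + ‖(s : ℂ) + l₂‖))) := by
          rw [mul_left_comm, ← Real.exp_add]
      _ ≤ _ := by
          apply mul_le_mul_of_nonneg_left _ hC₁.le
          apply Real.exp_le_exp.2
          have h5 : s ≤ min ((s : ℂ) + l₁).re ((s : ℂ) + l₂).re := by
            rw [add_re, add_re, ofReal_re]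
            exact le_min (by linarith) (by linarith)
          have h6 : ‖(s : ℂ) + l₁‖ ≤ s + ‖l₁‖ := by
            refine (norm_add_le _ _).trans ?_
            rw [norm_real, Real.norm_of_nonneg hs]
          have h7 : ‖(s : ℂ) + l₂‖ ≤ s + ‖l₂‖ := by
            refine (norm_add_le _ _).trans ?_
            rw [norm_real, Real.norm_of_nonneg hs]
          have h8 : ((s + l₁) + (s + l₂) : ℂ).re = 2 * s + l₁.re + l₂.re := by
            simp; ring
          rw [h8]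
          nlinarith
  obtain ⟨C', hC', hcore⟩ := core hρ (by linarith : -ρ < a) (by linarith : a < 1 + ρ) Θ
    (c.C₁ M) (c.C₂ M) hE hC₁.le hε2 (by linarith) (fun x => x.2.1) (fun x => x.2.2)
  refine ⟨c.m '' {w : ℂ × ℂ | (InRect ρ w.1 ∧ InRect ρ w.2) ∧ (w.1.re ≤ a ∨ w.2.re ≤ a)},
    ?_, ?_, C', ?_⟩
  · refine IsCompact.image ?_ c.dm.continuous
    refine ((isCompact_rect ρ).prod (isCompact_rect ρ)).inter_right
      (t := {w : ℂ × ℂ | w.1.re ≤ a ∨ w.2.re ≤ a}) ?_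
    exact (isClosed_le (continuous_re.comp continuous_fst) continuous_const).union
      (isClosed_le (continuous_re.comp continuous_snd) continuous_const)
  · rintro _ ⟨w, ⟨⟨h1, h2⟩, h3⟩, rfl⟩
    exact hρω _ _ h1 h2 h3
  · intro u B hB hu
    rw [← hΘ u]
    have hG : Differentiable ℂ fun w : ℂ × ℂ => (u : E → ℂ) (c.m w) :=
      (differentiableOn_univ.1 u.2).comp c.dm
    refine hcore ⟨fun w => (u : E → ℂ) (c.m w), hG.continuous⟩ hG _ (fun x => ?_) B
      fun w₁ w₂ h1 h2 h3 => hu _ ⟨(w₁, w₂), ⟨⟨h1, h2⟩, h3⟩, rfl⟩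
    change (u : E → ℂ) x = (u : E → ℂ) (c.m (c.X₁ x, c.X₂ x))
    rw [c.mX]

end Coord

end Pool.Agent.MP_564bf3_an
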