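import Mathlib

/-!
# Analytic functionals, carriers, convex supports and supporting hyperplanes
-/

noncomputable section

namespace Pool.Agent.MP_564bf3_an

variable {E : Type*} [NormedAddCommGroup E] [NormedSpace ℂ E]

/-- The space `H(ω)`: functions holomorphic on `ω` (only the values on `ω` matter). -/
def holo (ω : Set E) : Submodule ℂ (E → ℂ) where
  carrier := {u | DifferentiableOn ℂ u ω}
  add_mem' := fun hu hv => DifferentiableOn.add hu hv
  zero_mem' := differentiableOn_const 0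
  smul_mem' := fun c _ hu => DifferentiableOn.const_smul hu c

/-- A linear form `S` on `H(ω)` is continuous for the topology of uniform convergence on compact
subsets of `ω`. -/
def IsCont (ω : Set E) (S : holo ω →ₗ[ℂ] ℂ) : Prop :=
  ∃ M : Set E, IsCompact M ∧ M ⊆ ω ∧ ∃ C : ℝ, ∀ (u : holo ω) (B : ℝ), 0 ≤ B →
    (∀ x ∈ M, ‖(u : E → ℂ) x‖ ≤ B) → ‖S u‖ ≤ C * B

/-- `K` is a carrier of `T`: it is compact and `T` extends to a continuous linear form on `H(ω)`
for every open `ω ⊇ K`. -/
def IsCarrier (T : holo (Set.univ : Set E) →ₗ[ℂ] ℂ) (K : Set E) : Prop :=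
  IsCompact K ∧ ∀ ω : Set E, IsOpen ω → K ⊆ ω → ∃ S : holo ω →ₗ[ℂ] ℂ, IsCont ω S ∧
    ∀ (u : holo (Set.univ : Set E)) (v : holo ω), (v : E → ℂ) = u → S v = T u

/-- `K` is a C-support (convex support) of `T`: a minimal convex compact carrier. -/
def IsCSupport (T : holo (Set.univ : Set E) →ₗ[ℂ] ℂ) (K : Set E) : Prop :=
  Convex ℝ K ∧ IsCarrier T K ∧ ∀ L : Set E, Convex ℝ L → IsCarrier T L → L ⊆ K → L = K

/-- `K` is a unique C-support: for every analytic functional `T` having `K` as a C-support, `K` is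
the only C-support of `T`. -/
def IsUniqueCSupport (K : Set E) : Prop :=
  Convex ℝ K ∧ IsCompact K ∧ ∀ T : holo (Set.univ : Set E) →ₗ[ℂ] ℂ, IsCont Set.univ T →
    IsCSupport T K → ∀ L : Set E, IsCSupport T L → L = K

/-- `K` is a C-support of some analytic functional. -/
def IsSomeCSupport (K : Set E) : Prop :=
  ∃ T : holo (Set.univ : Set E) →ₗ[ℂ] ℂ, IsCont Set.univ T ∧ IsCSupport T K

/-- `P` is a complex hyperplane of `V(K)`, the complex affine span of `K`, which meets `K` and
misses the set `I` (the relative interior of `K`). -/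
def IsComplexSupporting (K I : Set E) (P : AffineSubspace ℂ E) : Prop :=
  P ≤ affineSpan ℂ K ∧
    Module.finrank ℂ P.direction + 1 = Module.finrank ℂ (affineSpan ℂ K).direction ∧
    (∃ x ∈ K, x ∈ P) ∧ ∀ x ∈ I, x ∉ P

/-- The supporting hyperplanes `{ℓ = c}` of `K`, as a subset of the space of pairs consisting of a
normalised normal direction `ℓ` and an offset `c`. -/
def supp (K : Set E) : Set ((E →L[ℝ] ℝ) × ℝ) :=
  {h | ‖h.1‖ = 1 ∧ (∀ x ∈ K, h.1 x ≤ h.2) ∧ ∃ x ∈ K, h.1 x = h.2}

/-- The supporting hyperplanes of `K` which contain an extreme point of `K` lying in exactly one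
complex supporting hyperplane of `K`. -/
def supp₀ (K I : Set E) : Set ((E →L[ℝ] ℝ) × ℝ) :=
  {h ∈ supp K | ∃ p ∈ K.extremePoints ℝ, h.1 p = h.2 ∧
    ∃! P : AffineSubspace ℂ E, IsComplexSupporting K I P ∧ p ∈ P}

/-- The real unit square in `ℂ²`. -/
def square : Set (EuclideanSpace ℂ (Fin 2)) :=
  {x | ∀ i, (x i).im = 0 ∧ 0 ≤ (x i).re ∧ (x i).re ≤ 1}

end Pool.Agent.MP_564bf3_an
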