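import Pool.Agent.Lib.MP_564bf3_an.Defs

/-!
# Extension of analytic functionals to continuous functions
-/

open Set

noncomputable section

namespace Pool.Agent.MP_564bf3_an

variable {E : Type*} [NormedAddCommGroup E] [NormedSpace ℂ E]

/-- The seminorm form of being a carrier. -/
def Carr (T : holo (univ : Set E) →ₗ[ℂ] ℂ) (K : Set E) : Prop :=
  ∀ ω : Set E, IsOpen ω → K ⊆ ω → ∃ M : Set E, IsCompact M ∧ M ⊆ ω ∧ ∃ C : ℝ,
    ∀ (u : holo (univ : Set E)) (B : ℝ), 0 ≤ B → (∀ x ∈ M, ‖(u : E → ℂ) x‖ ≤ B) → ‖T u‖ ≤ C * B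

theorem holo_continuous (u : holo (univ : Set E)) : Continuous (u : E → ℂ) :=
  continuousOn_univ.1 u.2.continuousOn

theorem IsCarrier.carr {T : holo (univ : Set E) →ₗ[ℂ] ℂ} {K : Set E} (h : IsCarrier T K) :
    Carr T K := by
  intro ω hω hK
  obtain ⟨S, ⟨M, hM, hMω, C, hC⟩, hS⟩ := h.2 ω hω hK
  refine ⟨M, hM, hMω, C, fun u B hB hu => ?_⟩
  rw [← hS u ⟨u, u.2.mono (subset_univ ω)⟩ rfl]
  exact hC _ B hB hu

/-- Restriction of entire functions to a compact set. -/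
def restL (M : Set E) : holo (univ : Set E) →ₗ[ℂ] C(M, ℂ) where
  toFun u := ⟨fun x => (u : E → ℂ) x, (holo_continuous u).comp continuous_subtype_val⟩
  map_add' _ _ := rfl
  map_smul' _ _ := rfl

theorem restL_apply (M : Set E) (u : holo (univ : Set E)) (x : M) :
    restL M u x = (u : E → ℂ) x := rfl

theorem exists_ext {T : holo (univ : Set E) →ₗ[ℂ] ℂ} {M : Set E} [CompactSpace M] {C : ℝ}
    (h : ∀ (u : holo (univ : Set E)) (B : ℝ), 0 ≤ B → (∀ x ∈ M, ‖(u : E → ℂ) x‖ ≤ B) →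
      ‖T u‖ ≤ C * B) :
    ∃ Θ : C(M, ℂ) →L[ℂ] ℂ, ∀ u, Θ (restL M u) = T u := by
  have hb : ∀ u, ‖T u‖ ≤ C * ‖restL M u‖ := fun u =>
    h u _ (norm_nonneg _) fun x hx => (restL M u).norm_coe_le_norm ⟨x, hx⟩
  obtain ⟨s, hs⟩ := LinearMap.exists_rightInverse_of_surjective (restL M).rangeRestrict
    (LinearMap.range_rangeRestrict _)
  have hs' : ∀ y, restL M (s y) = y := by
    intro y
    have h1 := LinearMap.congr_fun hs y
    exact congrArg Subtype.val h1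
  set f : StrongDual ℂ (LinearMap.range (restL M)) := (T.comp s).mkContinuous C fun y => by
    have h1 := hb (s y)
    rw [hs'] at h1
    exact h1
  obtain ⟨Θ, hΘ, -⟩ := exists_extension_norm_eq (LinearMap.range (restL M)) f
  refine ⟨Θ, fun u => ?_⟩
  have h2 := hΘ ⟨restL M u, u, rfl⟩
  rw [h2]
  have h3 : f ⟨restL M u, u, rfl⟩ = T (s ⟨restL M u, u, rfl⟩) := rfl
  rw [h3, ← sub_eq_zero, ← map_sub, ← norm_le_zero_iff]
  refine (hb _).trans ?_
  rw [map_sub, hs']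
  simp

theorem Carr.isCarrier {T : holo (univ : Set E) →ₗ[ℂ] ℂ} {K : Set E} (hK : IsCompact K)
    (h : Carr T K) : IsCarrier T K := by
  refine ⟨hK, fun ω hω hKω => ?_⟩
  obtain ⟨M, hM, hMω, C, hC⟩ := h ω hω hKω
  have : CompactSpace M := isCompact_iff_compactSpace.1 hM
  obtain ⟨Θ, hΘ⟩ := exists_ext hC
  have hcont : ∀ v : holo ω, Continuous fun x : M => (v : E → ℂ) x := fun v =>
    (v.2.continuousOn.mono hMω).domRestrict
  set R : holo ω →ₗ[ℂ] C(M, ℂ) :=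
    { toFun := fun v => ⟨fun x => (v : E → ℂ) x, hcont v⟩
      map_add' := fun _ _ => rfl
      map_smul' := fun _ _ => rfl } with hR
  refine ⟨Θ.toLinearMap.comp R, ⟨M, hM, hMω, ‖Θ‖, fun v B hB hv => ?_⟩, fun u v huv => ?_⟩
  · refine (Θ.le_opNorm _).trans ?_
    apply mul_le_mul_of_nonneg_left _ (norm_nonneg _)
    rw [ContinuousMap.norm_le _ hB]
    exact fun x => hv x x.2
  · rw [← hΘ u]
    have : R v = restL M u := by
      ext x
      change (v : E → ℂ) x = (u : E → ℂ) x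
      rw [huv]
    change Θ (R v) = _
    rw [this]

theorem isCarrier_iff {T : holo (univ : Set E) →ₗ[ℂ] ℂ} {K : Set E} :
    IsCarrier T K ↔ IsCompact K ∧ Carr T K :=
  ⟨fun h => ⟨h.1, h.carr⟩, fun h => h.2.isCarrier h.1⟩

end Pool.Agent.MP_564bf3_an
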