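import Pool.Agent.Lib.MP_564bf3_an.Cut

/-!
# The real unit square is a unique C-support
-/

open Complex Filter Set
open scoped Topology

noncomputable section

namespace Pool.Agent.MP_564bf3_an

/-- The reflection `z ↦ 1 - z` or the identity. -/
def fl (b : Bool) (z : ℂ) : ℂ := if b then z else 1 - z

theorem fl_fl (b : Bool) (z : ℂ) : fl b (fl b z) = z := by
  cases b <;> simp [fl]

theorem differentiable_fl (b : Bool) : Differentiable ℂ (fl b) := by
  cases b
  · exact (differentiable_const 1).sub differentiable_id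
  · exact differentiable_id

/-- Two-dimensional complex space. -/
abbrev E2 : Type := EuclideanSpace ℂ (Fin 2)

/-- The four coordinate systems adapted to the vertices of the square. -/
def co (σ τ : Bool) : Coord E2 where
  X₁ x := fl σ (x 0)
  X₂ x := fl τ (x 1)
  m w := !₂[fl σ w.1, fl τ w.2]
  dX₁ := (differentiable_fl σ).comp (by fun_prop)
  dX₂ := (differentiable_fl τ).comp (by fun_prop)
  dm := by
    rw [differentiable_euclidean]
    intro i
    fin_cases i
    · exact (differentiable_fl σ).comp differentiable_fst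
    · exact (differentiable_fl τ).comp differentiable_snd
  X₁m w := by simp [fl_fl]
  X₂m w := by simp [fl_fl]
  mX x := by
    ext i
    fin_cases i
    · simp [fl_fl]
    · simp [fl_fl]

theorem sq_co (σ τ : Bool) : (co σ τ).sq = square := by
  ext x
  have key : ∀ b z, (fl b z).im = 0 ∧ 0 ≤ (fl b z).re ∧ (fl b z).re ≤ 1 ↔
      z.im = 0 ∧ 0 ≤ z.re ∧ z.re ≤ 1 := by
    intro b z
    cases b
    · simp only [fl, Bool.false_eq_true, if_false, sub_im, one_im, sub_re, one_re]
      constructor
      · rintro ⟨h1, h2, h3⟩; exact ⟨by linarith, by linarith, by linarith⟩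
      · rintro ⟨h1, h2, h3⟩; exact ⟨by linarith, by linarith, by linarith⟩
    · simp [fl]
  change ((fl σ (x 0)).im = 0 ∧ 0 ≤ (fl σ (x 0)).re ∧ (fl σ (x 0)).re ≤ 1 ∧
    (fl τ (x 1)).im = 0 ∧ 0 ≤ (fl τ (x 1)).re ∧ (fl τ (x 1)).re ≤ 1) ↔
    ∀ i, (x i).im = 0 ∧ 0 ≤ (x i).re ∧ (x i).re ≤ 1
  rw [Fin.forall_fin_two, ← key σ (x 0), ← key τ (x 1)]
  tauto

theorem isCompact_square : IsCompact square := by
  rw [← sq_co true true]
  have c1 := (co true true).dX₁.continuous
  have c2 := (co true true).dX₂.continuous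
  refine ((co true true).isCompact_box 1).of_isClosed_subset ?_ ?_
  · have i1 := continuous_re.comp c1
    have i2 := continuous_im.comp c1
    have i3 := continuous_re.comp c2
    have i4 := continuous_im.comp c2
    exact (isClosed_eq i2 continuous_const).and
      ((isClosed_le continuous_const i1).and ((isClosed_le i1 continuous_const).and
      ((isClosed_eq i4 continuous_const).and ((isClosed_le continuous_const i3).and
      (isClosed_le i3 continuous_const)))))
  · rintro w ⟨h1, h2, h3, h4, h5, h6⟩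
    exact ⟨⟨by linarith, by linarith, by linarith, by linarith⟩,
      ⟨by linarith, by linarith, by linarith, by linarith⟩⟩

theorem convex_square : Convex ℝ square := by
  intro x hx y hy a b ha hb hab i
  obtain ⟨h1, h2, h3⟩ := hx i
  obtain ⟨h4, h5, h6⟩ := hy i
  have h7 : (a • x + b • y) i = a * x i + b * y i := by simp
  rw [h7, add_im, add_re, im_ofReal_mul, im_ofReal_mul, re_ofReal_mul, re_ofReal_mul, h1, h4]
  refine ⟨by simp, by positivity, ?_⟩
  nlinarith

theorem convex_cut (σ τ : Bool) (a : ℝ) : Convex ℝ ((co σ τ).cut a) := by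
  have hsq : (co σ τ).cut a = square ∩ {x | (fl σ (x 0)).re + (fl τ (x 1)).re ≤ 1 + a} := by
    ext x
    rw [Coord.cut, sq_co]
    rfl
  rw [hsq]
  apply convex_square.inter
  intro x hx y hy s t hs ht hst
  have h1 : (fl σ (x 0)).re + (fl τ (x 1)).re ≤ 1 + a := hx
  have h2 : (fl σ (y 0)).re + (fl τ (y 1)).re ≤ 1 + a := hy
  have key : ∀ (b : Bool) (i : Fin 2), (fl b ((s • x + t • y) i)).re =
      s * (fl b (x i)).re + t * (fl b (y i)).re := by
    intro b i
    have h7 : (s • x + t • y) i = s * x i + t * y i := by simp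
    rw [h7]
    cases b
    · simp only [fl, Bool.false_eq_true, if_false, sub_re, one_re, add_re, re_ofReal_mul]
      linear_combination -hst
    · simp only [fl, if_true, add_re, re_ofReal_mul]
  change (fl σ ((s • x + t • y) 0)).re + (fl τ ((s • x + t • y) 1)).re ≤ 1 + a
  rw [key, key]
  have h3 := mul_le_mul_of_nonneg_left h1 hs
  have h4 := mul_le_mul_of_nonneg_left h2 ht
  have h5 : s * (1 + a) + t * (1 + a) = 1 + a := by rw [← add_mul, hst, one_mul]
  linarith

theorem isCompact_cut (σ τ : Bool) (a : ℝ) : IsCompact ((co σ τ).cut a) := by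
  have h : IsCompact (co σ τ).sq := by rw [sq_co]; exact isCompact_square
  exact h.inter_right (t := {x | ((co σ τ).X₁ x).re + ((co σ τ).X₂ x).re ≤ 1 + a})
    (isClosed_le ((continuous_re.comp (co σ τ).dX₁.continuous).add
      (continuous_re.comp (co σ τ).dX₂.continuous)) continuous_const)

/-- Separation of a point of the square from a convex compact set. -/
theorem exists_direction {L : Set E2} (hL : Convex ℝ L) (hLc : IsCompact L) {v : E2}
    (hv : v ∈ square) (hvL : v ∉ L) :
    ∃ σ τ : Bool, ∃ a b : ℂ, 0 < a.re ∧ 0 < b.re ∧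
      ∀ x ∈ L, (a * (co σ τ).X₁ x + b * (co σ τ).X₂ x).re < (a + b).re := by
  obtain ⟨f, u, hfL, hfv⟩ :=
    RCLike.geometric_hahn_banach_closed_point (𝕜 := ℂ) hL hLc.isClosed hvL
  set α : ℂ := f (EuclideanSpace.single 0 1) with hα
  set β : ℂ := f (EuclideanSpace.single 1 1) with hβ
  have hf : ∀ x : E2, f x = α * x 0 + β * x 1 := by
    intro x
    have h1 : x = x 0 • EuclideanSpace.single 0 (1 : ℂ) + x 1 • EuclideanSpace.single 1 (1 : ℂ) := by
      ext i
      fin_cases i <;> simp
    conv_lhs => rw [h1]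
    rw [map_add, map_smul, map_smul, smul_eq_mul, smul_eq_mul]
    ring
  -- sign choice in one variable
  have key : ∀ γ : ℂ, ∃ (σ : Bool) (a k : ℂ), 0 ≤ a.re ∧ (∀ z, a * fl σ z = γ * z - k) ∧
      ∀ z : ℂ, z.im = 0 → 0 ≤ z.re → z.re ≤ 1 → (γ * z).re - k.re ≤ a.re := by
    intro γ
    rcases le_total 0 γ.re with h | h
    · refine ⟨true, γ, 0, h, fun z => by simp [fl], fun z h1 h2 h3 => ?_⟩
      rw [mul_re, h1]
      simp only [mul_zero, sub_zero, zero_re]
      nlinarith
    · refine ⟨false, -γ, γ, by simpa using h, fun z => by simp [fl]; ring,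
        fun z h1 h2 h3 => ?_⟩
      rw [mul_re, h1, neg_re]
      nlinarith
  obtain ⟨σ, a, k, ha, hk, hk'⟩ := key α
  obtain ⟨τ, b, l, hb, hl, hl'⟩ := key β
  have hlin : ∀ x : E2, a * fl σ (x 0) + b * fl τ (x 1) = f x - (k + l) := by
    intro x
    rw [hk, hl, hf]; ring
  set u' : ℝ := u - (k + l).re with hu'
  have h1 : ∀ x ∈ L, (a * fl σ (x 0) + b * fl τ (x 1)).re < u' := by
    intro x hx
    rw [hlin, sub_re]
    have := hfL x hx
    change (f x).re < u at this
    linarith
  have h2 : u' < (a + b).re := by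
    have h3 := hk' (v 0) (hv 0).1 (hv 0).2.1 (hv 0).2.2
    have h4 := hl' (v 1) (hv 1).1 (hv 1).2.1 (hv 1).2.2
    change u < (f v).re at hfv
    rw [hf, add_re] at hfv
    rw [hu', add_re, add_re]
    linarith
  have hcont : Continuous fun x : E2 => ‖fl σ (x 0)‖ + ‖fl τ (x 1)‖ := by
    have c1 : Continuous fun x : E2 => fl σ (x 0) := (co σ τ).dX₁.continuous
    have c2 : Continuous fun x : E2 => fl τ (x 1) := (co σ τ).dX₂.continuous
    exact c1.norm.add c2.norm
  obtain ⟨R, hR⟩ := hLc.bddAbove_image hcont.continuousOn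
  have hR' : ∀ x ∈ L, ‖fl σ (x 0)‖ + ‖fl τ (x 1)‖ ≤ max R 0 := fun x hx =>
    (hR ⟨x, hx, rfl⟩).trans (le_max_left _ _)
  have hR0 : 0 ≤ max R 0 := le_max_right _ _
  set η : ℝ := ((a + b).re - u') / (max R 0 + 1) with hη
  have hηpos : 0 < η := div_pos (by linarith) (by linarith)
  have hηR : η * (max R 0 + 1) = (a + b).re - u' := by
    rw [hη]; field_simp
  refine ⟨σ, τ, a + η, b + η, by simp; linarith, by simp; linarith, fun x hx => ?_⟩
  change ((a + η) * fl σ (x 0) + (b + η) * fl τ (x 1)).re < _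
  have h5 : (a + η) * fl σ (x 0) + (b + η) * fl τ (x 1) =
      (a * fl σ (x 0) + b * fl τ (x 1)) + η * (fl σ (x 0) + fl τ (x 1)) := by ring
  rw [h5, add_re, re_ofReal_mul]
  have h6 : (fl σ (x 0) + fl τ (x 1)).re ≤ max R 0 :=
    (re_le_norm _).trans ((norm_add_le _ _).trans (hR' x hx))
  have h7 : η * (fl σ (x 0) + fl τ (x 1)).re ≤ η * max R 0 :=
    mul_le_mul_of_nonneg_left h6 hηpos.le
  have h8 := h1 x hx
  have h9 : (a + η + (b + η)).re = (a + b).re + 2 * η := by simp; ring
  rw [h9]
  linarith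

/-- The square is a unique C-support. -/
theorem unique_square : IsUniqueCSupport square := by
  refine ⟨convex_square, isCompact_square, fun T _ hT L hL => ?_⟩
  obtain ⟨-, hTc, hTmin⟩ := hT
  obtain ⟨hLconv, hLc, hLmin⟩ := hL
  have hsub : square ⊆ L := by
    intro v hv
    by_contra hvL
    obtain ⟨σ, τ, a, b, ha, hb, hab⟩ := exists_direction hLconv hLc.1 hv hvL
    have hTsq : Carr T (co σ τ).sq := by rw [sq_co]; exact hTc.carr
    obtain ⟨c, hc0, hc1, hcut⟩ := (co σ τ).exists_cut hTsq hLc.1 hLc.carr ha hb hab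
    have hK : IsCarrier T ((co σ τ).cut c) := hcut.isCarrier (isCompact_cut σ τ c)
    have hKsub : (co σ τ).cut c ⊆ square := by
      intro x hx
      rw [← sq_co σ τ]
      exact hx.1
    have heq := hTmin _ (convex_cut σ τ c) hK hKsub
    have hmem : (co σ τ).m (1, 1) ∈ square := by
      rw [← sq_co σ τ]
      change ((co σ τ).X₁ ((co σ τ).m (1, 1))).im = 0 ∧ _
      simp only [(co σ τ).X₁m, (co σ τ).X₂m]
      simp
    rw [← heq] at hmem
    have h1 : ((co σ τ).X₁ ((co σ τ).m (1, 1))).re + ((co σ τ).X₂ ((co σ τ).m (1, 1))).re ≤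
      1 + c := hmem.2
    rw [(co σ τ).X₁m, (co σ τ).X₂m] at h1
    simp only [one_re] at h1
    linarith
  exact (hLmin square convex_square hTc hsub).symm

end Pool.Agent.MP_564bf3_an
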