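import Pool.Agent.Lib.MP_564bf3_an.Final

/-!
# An analytic functional supported by the square, and the supporting hyperplanes of the square
-/

open Complex Filter Set
open scoped Topology

noncomputable section

namespace Pool.Agent.MP_564bf3_an

/-- The four vertices. -/
def vert (σ τ : Bool) : E2 := (co σ τ).m (1, 1)

theorem vert_mem (σ τ : Bool) : vert σ τ ∈ square := by
  rw [← sq_co σ τ, vert]
  change ((co σ τ).X₁ ((co σ τ).m (1, 1))).im = 0 ∧ _
  simp only [(co σ τ).X₁m, (co σ τ).X₂m]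
  simp

/-- Evaluation at a point. -/
def evl (x : E2) : holo (univ : Set E2) →ₗ[ℂ] ℂ where
  toFun u := (u : E2 → ℂ) x
  map_add' _ _ := rfl
  map_smul' _ _ := rfl

/-- The sum of the evaluations at the four vertices. -/
def T₀ : holo (univ : Set E2) →ₗ[ℂ] ℂ :=
  evl (vert true true) + evl (vert true false) + evl (vert false true) + evl (vert false false)

theorem T₀_apply (u : holo (univ : Set E2)) :
    T₀ u = (u : E2 → ℂ) (vert true true) + (u : E2 → ℂ) (vert true false) +
      (u : E2 → ℂ) (vert false true) + (u : E2 → ℂ) (vert false false) := rfl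

theorem T₀_bound {u : holo (univ : Set E2)} {B : ℝ}
    (h : ∀ x ∈ square, ‖(u : E2 → ℂ) x‖ ≤ B) : ‖T₀ u‖ ≤ 4 * B := by
  rw [T₀_apply]
  refine (norm_add_le _ _).trans ?_
  have h1 := h _ (vert_mem false false)
  have h2 := norm_add_le ((u : E2 → ℂ) (vert true true) + (u : E2 → ℂ) (vert true false))
    ((u : E2 → ℂ) (vert false true))
  have h3 := norm_add_le ((u : E2 → ℂ) (vert true true)) ((u : E2 → ℂ) (vert true false))
  have h4 := h _ (vert_mem true true)
  have h5 := h _ (vert_mem true false)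
  have h6 := h _ (vert_mem false true)
  linarith

theorem T₀_cont : IsCont univ T₀ :=
  ⟨square, isCompact_square, subset_univ _, 4, fun _ _ _ h => T₀_bound h⟩

theorem T₀_carr : Carr T₀ square :=
  fun _ _ hK => ⟨square, isCompact_square, hK, 4, fun _ _ _ h => T₀_bound h⟩

theorem X_vert (σ τ σ' τ' : Bool) :
    (co σ τ).X₁ (vert σ' τ') = fl σ (fl σ' 1) ∧ (co σ τ).X₂ (vert σ' τ') = fl τ (fl τ' 1) := by
  constructor <;> simp [co, vert]

theorem tr_T₀ (σ τ : Bool) (z w : ℂ) :
    (co σ τ).tr T₀ z w = (1 + cexp (-z)) * (1 + cexp (-w)) := by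
  have h1 : T₀ ((co σ τ).ex z w) = (cexp z + 1) * (cexp w + 1) := by
    rw [T₀_apply]
    change cexp (z * (co σ τ).X₁ (vert true true) + w * (co σ τ).X₂ (vert true true)) +
      cexp (z * (co σ τ).X₁ (vert true false) + w * (co σ τ).X₂ (vert true false)) +
      cexp (z * (co σ τ).X₁ (vert false true) + w * (co σ τ).X₂ (vert false true)) +
      cexp (z * (co σ τ).X₁ (vert false false) + w * (co σ τ).X₂ (vert false false)) = _
    simp only [(X_vert σ τ _ _).1, (X_vert σ τ _ _).2]
    cases σ <;> cases τ <;> simp [fl, Complex.exp_add] <;> ring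
  rw [Coord.tr, h1, neg_add, Complex.exp_add]
  have h2 : cexp (-z) * (cexp z + 1) = 1 + cexp (-z) := by
    rw [mul_add, ← Complex.exp_add, neg_add_cancel, Complex.exp_zero, mul_one]
  have h3 : cexp (-w) * (cexp w + 1) = 1 + cexp (-w) := by
    rw [mul_add, ← Complex.exp_add, neg_add_cancel, Complex.exp_zero, mul_one]
  rw [← h2, ← h3]; ring

/-- Every convex compact carrier of `T₀` inside the square contains the vertices. -/
theorem vert_mem_of_carrier {L : Set E2} (hL : IsCarrier T₀ L) (hsub : L ⊆ square) (σ τ : Bool) :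
    vert σ τ ∈ L := by
  by_contra hv
  have h1 : ∀ x ∈ L, (1 * (co σ τ).X₁ x + 1 * (co σ τ).X₂ x).re < (1 + 1 : ℂ).re := by
    intro x hx
    have h2 := hsub hx
    rw [← sq_co σ τ] at h2
    obtain ⟨g1, g2, g3, g4, g5, g6⟩ := h2
    rw [one_mul, one_mul, add_re, add_re, one_re]
    rcases lt_or_eq_of_le g3 with g7 | g7
    · linarith
    rcases lt_or_eq_of_le g6 with g8 | g8
    · linarith
    exfalso
    apply hv
    have e1 : (co σ τ).X₁ x = 1 := Complex.ext (by simpa using g7) (by simpa using g1)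
    have e2 : (co σ τ).X₂ x = 1 := Complex.ext (by simpa using g8) (by simpa using g4)
    have e3 := (co σ τ).mX x
    rw [e1, e2] at e3
    rw [vert, e3]
    exact hx
  obtain ⟨r, hr, δ, hδ, C, hC, h⟩ := (co σ τ).dec_of_carr hL.1 hL.carr h1
  have h2 : ∀ t : ℝ, 0 ≤ t → 1 ≤ C * Real.exp (-δ * t) := by
    intro t ht
    have h3 := h t ht 1 1 (by simpa using hr.le) (by simpa using hr.le)
    rw [tr_T₀, mul_one, ← ofReal_neg, ← ofReal_exp] at h3
    have h4 : (1 + (Real.exp (-t) : ℂ)) * (1 + (Real.exp (-t) : ℂ)) =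
        (((1 + Real.exp (-t)) * (1 + Real.exp (-t)) : ℝ) : ℂ) := by push_cast; ring
    rw [h4, norm_real, Real.norm_of_nonneg (by positivity)] at h3
    have h5 := Real.exp_pos (-t)
    nlinarith
  have h6 : Tendsto (fun t : ℝ => C * Real.exp (-δ * t)) atTop (𝓝 (C * 0)) := by
    apply Tendsto.const_mul
    apply Real.tendsto_exp_atBot.comp
    exact tendsto_id.const_mul_atTop_of_neg (by linarith)
  rw [mul_zero] at h6
  have h7 : (1 : ℝ) ≤ 0 := ge_of_tendsto h6 (by
    filter_upwards [eventually_ge_atTop 0] with t ht using h2 t ht)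
  linarith

theorem square_sub_of_vert {L : Set E2} (hL : Convex ℝ L) (h : ∀ σ τ, vert σ τ ∈ L) :
    square ⊆ L := by
  intro x hx
  have hs := hx 0
  have ht := hx 1
  set s := (x 0).re with hsdef
  set t := (x 1).re with htdef
  have h1 : s • vert true true + (1 - s) • vert false true ∈ L :=
    hL (h _ _) (h _ _) hs.2.1 (by linarith [hs.2.2]) (by ring)
  have h2 : s • vert true false + (1 - s) • vert false false ∈ L :=
    hL (h _ _) (h _ _) hs.2.1 (by linarith [hs.2.2]) (by ring)
  have h3 : t • (s • vert true true + (1 - s) • vert false true) +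
      (1 - t) • (s • vert true false + (1 - s) • vert false false) ∈ L :=
    hL h1 h2 ht.2.1 (by linarith [ht.2.2]) (by ring)
  convert h3 using 1
  have hx0 : x 0 = (s : ℂ) := Complex.ext (by simp [hsdef]) (by simpa using hs.1)
  have hx1 : x 1 = (t : ℂ) := Complex.ext (by simp [htdef]) (by simpa using ht.1)
  ext i
  fin_cases i
  · change x 0 = _
    rw [hx0]
    simp [vert, co, fl]
    ring
  · change x 1 = _
    rw [hx1]
    simp [vert, co, fl]
    ring

theorem T₀_support : IsCSupport T₀ square :=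
  ⟨convex_square, T₀_carr.isCarrier isCompact_square, fun _ hL hLc hsub =>
    hsub.antisymm (square_sub_of_vert hL (vert_mem_of_carrier hLc hsub))⟩

/-- Points of a relative interior may be moved inside the affine span. -/
theorem eventually_mem_of_intrinsicInterior {𝕜 V : Type*} [Ring 𝕜] [NormedAddCommGroup V]
    [Module 𝕜 V] {s : Set V} {x : V} (hx : x ∈ intrinsicInterior 𝕜 s) {γ : ℝ → V}
    (hγ : Continuous γ) (h0 : γ 0 = x) (hs : ∀ t, γ t ∈ affineSpan 𝕜 s) :
    ∀ᶠ t in 𝓝 (0 : ℝ), γ t ∈ s := by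
  obtain ⟨y, hy, rfl⟩ := hx
  have h1 : Continuous fun t => (⟨γ t, hs t⟩ : affineSpan 𝕜 s) :=
    Continuous.subtype_mk hγ _
  have h2 : (⟨γ 0, hs 0⟩ : affineSpan 𝕜 s) = y := Subtype.ext h0
  have h3 : (fun t => (⟨γ t, hs t⟩ : affineSpan 𝕜 s)) ⁻¹'
      ((↑) ⁻¹' s : Set (affineSpan 𝕜 s)) ∈ 𝓝 (0 : ℝ) := by
    apply h1.continuousAt.preimage_mem_nhds
    rw [h2]
    exact mem_interior_iff_mem_nhds.1 hy
  exact h3

/-- The unit vectors. -/
def ee (i : Fin 2) : E2 := EuclideanSpace.single i 1

theorem ee_mem (i : Fin 2) : ee i ∈ square := by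
  intro j
  by_cases h : j = i
  · subst h; simp [ee]
  · simp [ee, h]

theorem zero_mem_square : (0 : E2) ∈ square := by
  intro j; simp

theorem add_smul_ee_apply (x : E2) (t : ℝ) (i : Fin 2) : (x + t • ee i) i = x i + t := by
  simp [ee]

/-- Bounds for points of a relative interior. -/
theorem re_of_intrinsicInterior {𝕜 : Type*} [Ring 𝕜] [Module 𝕜 E2]
    (hreal : ∀ (x : E2) (t : ℝ) (i : Fin 2), x ∈ affineSpan 𝕜 square →
      x + t • ee i ∈ affineSpan 𝕜 square) {x : E2}
    (hx : x ∈ intrinsicInterior 𝕜 square) (i : Fin 2) : 0 < (x i).re ∧ (x i).re < 1 := by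
  have hxs : x ∈ square := intrinsicInterior_subset hx
  have h1 := eventually_mem_of_intrinsicInterior hx (γ := fun t : ℝ => x + t • ee i)
    (by fun_prop) (by simp) fun t => hreal x t i (subset_affineSpan 𝕜 _ hxs)
  rw [Metric.eventually_nhds_iff] at h1
  obtain ⟨ε, hε, h2⟩ := h1
  have h3 := (h2 (y := ε / 2) (by simp [abs_of_pos hε]; linarith)) i
  have h4 := (h2 (y := -(ε / 2)) (by simp [abs_of_pos hε]; linarith)) i
  rw [add_smul_ee_apply] at h3 h4
  have h5 := h3.2.2
  have h6 := h4.2.1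
  rw [add_re, ofReal_re] at h5 h6
  constructor <;> linarith

theorem affineSpan_square_real (x : E2) (t : ℝ) (i : Fin 2) (hx : x ∈ affineSpan ℝ square) :
    x + t • ee i ∈ affineSpan ℝ square := by
  have h1 : ee i -ᵥ (0 : E2) ∈ vectorSpan ℝ square :=
    vsub_mem_vectorSpan ℝ (ee_mem i) zero_mem_square
  rw [vsub_eq_sub, sub_zero] at h1
  have h2 := AffineSubspace.vadd_mem_of_mem_direction
    (by rw [direction_affineSpan]; exact Submodule.smul_mem _ t h1 :
      t • ee i ∈ (affineSpan ℝ square).direction) hx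
  rwa [vadd_eq_add, add_comm] at h2

theorem affineSpan_square : affineSpan ℂ square = ⊤ := by
  have h0 : (0 : E2) ∈ affineSpan ℂ square := subset_affineSpan ℂ _ zero_mem_square
  have h1 : ∀ i, ee i ∈ (affineSpan ℂ square).direction := by
    intro i
    have := vsub_mem_vectorSpan ℂ (ee_mem i) zero_mem_square
    rw [vsub_eq_sub, sub_zero] at this
    rwa [direction_affineSpan]
  rw [← AffineSubspace.direction_eq_top_iff_of_nonempty ⟨0, h0⟩, eq_top_iff]
  intro x _
  have h2 : x = x 0 • ee 0 + x 1 • ee 1 := by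
    ext i
    fin_cases i <;> simp [ee]
  rw [h2]
  exact Submodule.add_mem _ (Submodule.smul_mem _ _ (h1 0)) (Submodule.smul_mem _ _ (h1 1))

theorem affineSpan_square_complex (x : E2) (t : ℝ) (i : Fin 2) (_ : x ∈ affineSpan ℂ square) :
    x + t • ee i ∈ affineSpan ℂ square := by
  rw [affineSpan_square]; trivial

/-- The complex line through `p` on which the coordinate `i` is constant. -/
def line (i : Fin 2) (p : E2) : AffineSubspace ℂ E2 :=
  AffineSubspace.mk' p (LinearMap.ker (EuclideanSpace.proj i : E2 →L[ℂ] ℂ).toLinearMap)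

theorem mem_line {i : Fin 2} {p x : E2} : x ∈ line i p ↔ x i = p i := by
  rw [line, AffineSubspace.mem_mk', LinearMap.mem_ker]
  change (x - p) i = 0 ↔ _
  rw [PiLp.sub_apply, sub_eq_zero]

theorem line_ne (p : E2) : line 0 p ≠ line 1 p := by
  intro h
  have h1 : p + ee 1 ∈ line 0 p := by rw [mem_line]; simp [ee]
  rw [h, mem_line] at h1
  simp [ee] at h1

theorem finrank_line (i : Fin 2) (p : E2) : Module.finrank ℂ (line i p).direction = 1 := by
  rw [line, AffineSubspace.direction_mk']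
  have h1 := LinearMap.finrank_range_add_finrank_ker
    (EuclideanSpace.proj i : E2 →L[ℂ] ℂ).toLinearMap
  have h2 : LinearMap.range (EuclideanSpace.proj i : E2 →L[ℂ] ℂ).toLinearMap = ⊤ := by
    rw [LinearMap.range_eq_top]
    intro z
    exact ⟨EuclideanSpace.single i z, by simp⟩
  rw [h2, finrank_top, Module.finrank_self, finrank_euclideanSpace_fin] at h1
  exact Nat.add_left_cancel (h1.trans (by norm_num : (2 : ℕ) = 1 + 1))

/-- Coordinates of extreme points. -/
theorem extreme_coord {p : E2} (hp : p ∈ square.extremePoints ℝ) (i : Fin 2) :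
    ¬ (0 < (p i).re ∧ (p i).re < 1) := by
  rintro ⟨h1, h2⟩
  have hps := hp.1
  set δ := min (p i).re (1 - (p i).re) with hδ
  have hδpos : 0 < δ := lt_min h1 (by linarith)
  have hδ1 : δ ≤ (p i).re := min_le_left _ _
  have hδ2 : δ ≤ 1 - (p i).re := min_le_right _ _
  have hmem : ∀ t : ℝ, |t| ≤ δ → p + t • ee i ∈ square := by
    intro t ht j
    rw [abs_le] at ht
    by_cases hj : j = i
    · subst hj
      rw [add_smul_ee_apply, add_im, add_re, ofReal_im, ofReal_re, (hps j).1]
      exact ⟨by simp, by linarith, by linarith⟩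
    · have : (p + t • ee i) j = p j := by simp [ee, hj]
      rw [this]
      exact hps j
  have h3 := hmem δ (by rw [abs_of_pos hδpos])
  have h4 := hmem (-δ) (by rw [abs_neg, abs_of_pos hδpos])
  have h5 : p ∈ openSegment ℝ (p + δ • ee i) (p + (-δ) • ee i) := by
    refine ⟨1 / 2, 1 / 2, by norm_num, by norm_num, by norm_num, ?_⟩
    module
  have h6 := hp.2 h3 h4 h5
  have h7 : δ • ee i = 0 := by simpa using h6
  have h8 : (δ • ee i) i = 0 := by rw [h7]; rfl
  simp [ee] at h8
  linarith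

/-- No supporting hyperplane of the square satisfies the extreme point condition. -/
theorem supp₀_eq_empty {I : Set E2} (hI : ∀ x ∈ I, ∀ i, 0 < (x i).re ∧ (x i).re < 1) :
    supp₀ square I = ∅ := by
  rw [eq_empty_iff_forall_notMem]
  rintro h ⟨-, p, hp, -, P, -, hP⟩
  have key : ∀ i, IsComplexSupporting square I (line i p) ∧ p ∈ line i p := by
    intro i
    refine ⟨⟨?_, ?_, ⟨p, hp.1, mem_line.2 rfl⟩, ?_⟩, mem_line.2 rfl⟩
    · rw [affineSpan_square]; exact le_top
    · rw [finrank_line, affineSpan_square, AffineSubspace.direction_top, finrank_top,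
        finrank_euclideanSpace_fin]
    · intro x hx hxl
      rw [mem_line] at hxl
      have h1 := hI x hx i
      rw [hxl] at h1
      exact extreme_coord hp i h1
  exact line_ne p ((hP _ (key 0)).trans (hP _ (key 1)).symm)

theorem supp_nonempty : (supp square).Nonempty := by
  set ℓ : E2 →L[ℝ] ℝ := reCLM.comp ((EuclideanSpace.proj 0 : E2 →L[ℂ] ℂ).restrictScalars ℝ)
    with hℓ
  have happ : ∀ x : E2, ℓ x = (x 0).re := fun _ => rfl
  have hne : ℓ ≠ 0 := by
    intro h
    have h1 := happ (ee 0)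
    rw [h] at h1
    simp [ee] at h1
  have hpos : 0 < ‖ℓ‖ := norm_pos_iff.2 hne
  refine ⟨(‖ℓ‖⁻¹ • ℓ, ‖ℓ‖⁻¹), ?_, fun x hx => ?_, ee 0, ee_mem 0, ?_⟩
  · rw [norm_smul, norm_inv, norm_norm, inv_mul_cancel₀ hpos.ne']
  · change ‖ℓ‖⁻¹ * ℓ x ≤ ‖ℓ‖⁻¹
    rw [happ]
    exact mul_le_of_le_one_right (by positivity) (hx 0).2.2
  · change ‖ℓ‖⁻¹ * ℓ (ee 0) = ‖ℓ‖⁻¹
    rw [happ]
    simp [ee]

end Pool.Agent.MP_564bf3_an
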