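import Mathlib

/-!
# Growth estimates in the product of two half planes
-/

open Complex Filter Set Asymptotics Bornology
open scoped Topology

noncomputable section

namespace Pool.Agent.MP_564bf3_an

/-- Maximum principle in a vertical strip for bounded functions. -/
theorem strip_bound {f : ℂ → ℂ} {a b C D : ℝ} (hf : Differentiable ℂ f)
    (hD : ∀ z : ℂ, a ≤ z.re → z.re ≤ b → ‖f z‖ ≤ D)
    (ha : ∀ z : ℂ, z.re = a → ‖f z‖ ≤ C) (hb : ∀ z : ℂ, z.re = b → ‖f z‖ ≤ C) {z : ℂ}
    (hza : a ≤ z.re) (hzb : z.re ≤ b) : ‖f z‖ ≤ C := by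
  rcases eq_or_lt_of_le (hza.trans hzb) with hab | hab
  · exact ha z (le_antisymm (hzb.trans hab.ge) hza)
  refine PhragmenLindelof.vertical_strip hf.diffContOnCl ⟨0, ?_, 0, ?_⟩ ha hb hza hzb
  · exact div_pos Real.pi_pos (sub_pos.2 hab)
  · refine IsBigO.of_bound D ?_
    filter_upwards [mem_inf_of_right (mem_principal_self _)] with w hw
    have hw' : a < w.re ∧ w.re < b := hw
    simpa using hD w hw'.1.le hw'.2.le

theorem quadrant_one {f : ℂ → ℂ} {A B C : ℝ} (hf : Differentiable ℂ f)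
    (hB : ∀ z : ℂ, 0 ≤ z.re → 0 ≤ z.im → ‖f z‖ ≤ A * Real.exp (B * ‖z‖))
    (hre : ∀ x : ℝ, 0 ≤ x → ‖f x‖ ≤ C) (him : ∀ x : ℝ, 0 ≤ x → ‖f (x * I)‖ ≤ C) {z : ℂ}
    (hz1 : 0 ≤ z.re) (hz2 : 0 ≤ z.im) : ‖f z‖ ≤ C := by
  refine PhragmenLindelof.quadrant_I hf.diffContOnCl ⟨1, by norm_num, B, ?_⟩ hre him hz1 hz2
  refine IsBigO.of_bound A ?_
  filter_upwards [mem_inf_of_right (mem_principal_self _)] with w hw
  rw [mem_reProdIm] at hw
  rw [Real.rpow_one, Real.norm_of_nonneg (Real.exp_pos _).le]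
  exact hB w (le_of_lt hw.1) (le_of_lt hw.2)

theorem quadrant_four {f : ℂ → ℂ} {A B C : ℝ} (hf : Differentiable ℂ f)
    (hB : ∀ z : ℂ, 0 ≤ z.re → z.im ≤ 0 → ‖f z‖ ≤ A * Real.exp (B * ‖z‖))
    (hre : ∀ x : ℝ, 0 ≤ x → ‖f x‖ ≤ C) (him : ∀ x : ℝ, x ≤ 0 → ‖f (x * I)‖ ≤ C) {z : ℂ}
    (hz1 : 0 ≤ z.re) (hz2 : z.im ≤ 0) : ‖f z‖ ≤ C := by
  refine PhragmenLindelof.quadrant_IV hf.diffContOnCl ⟨1, by norm_num, B, ?_⟩ hre him hz1 hz2
  refine IsBigO.of_bound A ?_
  filter_upwards [mem_inf_of_right (mem_principal_self _)] with w hw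
  rw [mem_reProdIm] at hw
  rw [Real.rpow_one, Real.norm_of_nonneg (Real.exp_pos _).le]
  exact hB w (le_of_lt hw.1) (le_of_lt hw.2)

/-- Entire functions of two variables of exponential type zero in the product of two half
planes. -/
structure GrowthData (f : ℂ → ℂ → ℂ) : Prop where
  diff : ∀ p q r s : ℂ, Differentiable ℂ fun μ : ℂ => f (p + μ * q) (r + μ * s)
  small : ∀ ε : ℝ, 0 < ε → ∃ C : ℝ, 0 < C ∧ ∀ z w : ℂ, 0 ≤ z.re → 0 ≤ w.re →
    ‖f z w‖ ≤ C * Real.exp (ε * (‖z‖ + ‖w‖))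

/-- Exponential decay near the direction `(a, b)`. -/
def Dec (f : ℂ → ℂ → ℂ) (a b : ℂ) : Prop :=
  ∃ r : ℝ, 0 < r ∧ ∃ δ : ℝ, 0 < δ ∧ ∃ C : ℝ, 0 < C ∧ ∀ t : ℝ, 0 ≤ t → ∀ z w : ℂ,
    ‖z - a‖ ≤ r → ‖w - b‖ ≤ r → ‖f (t * z) (t * w)‖ ≤ C * Real.exp (-δ * t)

theorem GrowthData.swap {f : ℂ → ℂ → ℂ} (hf : GrowthData f) : GrowthData fun z w => f w z where
  diff := fun p q r s => hf.diff r s p q
  small := fun ε hε => by
    obtain ⟨C, hC, h⟩ := hf.small ε hε
    refine ⟨C, hC, fun z w hz hw => ?_⟩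
    rw [add_comm]
    exact h w z hw hz

theorem Dec.swap {f : ℂ → ℂ → ℂ} {a b : ℂ} (h : Dec f a b) : Dec (fun z w => f w z) b a := by
  obtain ⟨r, hr, δ, hδ, C, hC, h⟩ := h
  exact ⟨r, hr, δ, hδ, C, hC, fun t ht z w hz hw => h t ht w z hw hz⟩

theorem norm_exp_real_mul (κ : ℝ) (s : ℂ) : ‖cexp (κ * s)‖ = Real.exp (κ * s.re) := by
  rw [Complex.norm_exp]; simp

theorem dec_step {f : ℂ → ℂ → ℂ} (hf : GrowthData f) {a b a' : ℂ} (hb : 0 < b.re)
    (h : Dec f a b) (haa : ‖a' - a‖ < a.re) : Dec f a' b := by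
  obtain ⟨r, hr, δ, hδ, C, hC, h⟩ := h
  set α := a.re with hα
  set R' := ‖a' - a‖ with hR'
  have hR'0 : 0 ≤ R' := norm_nonneg _
  set R₁ := (2 * R' + α) / 3 with hR₁
  set R := (R' + 2 * α) / 3 with hR
  have h1 : R' < R₁ := by rw [hR₁]; linarith
  have h2 : R₁ < R := by rw [hR₁, hR]; linarith
  have h3 : R < α := by rw [hR]; linarith
  have hR₁0 : 0 < R₁ := lt_of_le_of_lt hR'0 h1
  set r₀ := min r (min b.re R₁ / 2) with hr₀
  have hr₀pos : 0 < r₀ := lt_min hr (by have := lt_min hb hR₁0; linarith)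
  have hr₀r : r₀ ≤ r := min_le_left _ _
  have hr₀2 : r₀ ≤ min b.re R₁ / 2 := min_le_right _ _
  have hr₀b : r₀ < b.re := by
    have := min_le_left b.re R₁
    linarith [lt_min hb hR₁0]
  have hr₀R : r₀ < R₁ := by
    have := min_le_right b.re R₁
    linarith [lt_min hb hR₁0]
  set W := ‖a‖ + R + ‖b‖ + r₀ + 1 with hW
  have hWpos : 0 < W := by
    have h4 := norm_nonneg a
    have h5 := norm_nonneg b
    have h6 : 0 < R := hR₁0.trans h2
    rw [hW]; linarith
  set l₁ := Real.log (R₁ / r₀) with hl₁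
  set l₂ := Real.log (R / R₁) with hl₂
  have hl₁pos : 0 < l₁ := Real.log_pos (by rw [lt_div_iff₀ hr₀pos]; linarith)
  have hl₂pos : 0 < l₂ := Real.log_pos (by rw [lt_div_iff₀ hR₁0]; linarith)
  set κ := δ / (2 * l₁) with hκ
  have hκpos : 0 < κ := by positivity
  set ε := κ * l₂ / (2 * W) with hε
  have hεpos : 0 < ε := by positivity
  obtain ⟨Cε, hCε, hsmall⟩ := hf.small ε hεpos
  set δ' := min (δ / 2) (κ * l₂ / 2) with hδ'
  have hδ'pos : 0 < δ' := lt_min (by linarith) (by positivity)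
  refine ⟨min r₀ (R₁ - R'), lt_min hr₀pos (by linarith), δ', hδ'pos, C + Cε, by positivity, ?_⟩
  intro t ht z w hz hw
  have hz1 : ‖z - a‖ ≤ R₁ := by
    have h4 : z - a = (z - a') + (a' - a) := by ring
    have h5 := norm_add_le (z - a') (a' - a)
    rw [← h4] at h5
    have h6 := hz.trans (min_le_right _ _)
    linarith
  have hw1 : ‖w - b‖ ≤ r₀ := hw.trans (min_le_left _ _)
  have hwre : 0 < w.re := by
    have h4 := (abs_re_le_norm (w - b)).trans hw1
    rw [sub_re, abs_le] at h4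
    linarith [h4.1]
  have hwnorm : ‖w‖ ≤ ‖b‖ + r₀ := by
    have h4 := norm_sub_norm_le w b
    linarith
  have hexp1 : Real.exp (-δ * t) ≤ Real.exp (-δ' * t) := by
    apply Real.exp_le_exp.2
    have h4 : δ' ≤ δ := (min_le_left _ _).trans (by linarith)
    nlinarith
  rcases le_or_gt ‖z - a‖ r₀ with hcase | hcase
  · calc ‖f (t * z) (t * w)‖ ≤ C * Real.exp (-δ * t) :=
          h t ht z w (hcase.trans hr₀r) (hw1.trans hr₀r)
      _ ≤ (C + Cε) * Real.exp (-δ' * t) := by
          apply mul_le_mul (by linarith) hexp1 (Real.exp_pos _).le (by positivity)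
  · -- three circles
    have hne : z - a ≠ 0 := norm_pos_iff.1 (hr₀pos.trans hcase)
    set s := Complex.log (z - a) with hs
    have hexps : cexp s = z - a := Complex.exp_log hne
    have hsre : s.re = Real.log ‖z - a‖ := Complex.log_re _
    set g : ℂ → ℂ := fun s' => f (t * (a + cexp s')) (t * w) * cexp (((-(κ * t) : ℝ) : ℂ) * s')
      with hg
    have hgd : Differentiable ℂ g := by
      have h5 : Differentiable ℂ fun s' : ℂ => f (t * (a + cexp s')) (t * w) := by
        have h6 := (hf.diff (t * a) t (t * w) 0).comp Complex.differentiable_exp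
        have h7 : (fun s' : ℂ => f (t * (a + cexp s')) (t * w)) =
            (fun μ : ℂ => f (t * a + μ * t) (t * w + μ * 0)) ∘ cexp := by
          funext s'
          simp only [Function.comp]
          congr 1 <;> ring
        rw [h7]
        exact h6
      exact h5.mul ((differentiable_id.const_mul _).cexp)
    have hgn : ∀ s' : ℂ, ‖g s'‖ = ‖f (t * (a + cexp s')) (t * w)‖ * Real.exp (-(κ * t) * s'.re) := by
      intro s'
      rw [hg]; simp only
      rw [norm_mul, norm_exp_real_mul]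
    -- bound on all points with modulus `≤ R`
    have hbig : ∀ s' : ℂ, s'.re ≤ Real.log R →
        ‖f (t * (a + cexp s')) (t * w)‖ ≤ Cε * Real.exp (ε * W * t) := by
      intro s' hs'
      have hR0 : 0 < R := hR₁0.trans h2
      have h5 : ‖cexp s'‖ ≤ R := by
        rw [Complex.norm_exp, ← Real.exp_log hR0]
        exact Real.exp_le_exp.2 hs'
      have h6 : 0 ≤ (a + cexp s').re := by
        have h7 := (abs_re_le_norm (cexp s')).trans h5
        rw [abs_le] at h7
        rw [add_re]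
        linarith [h7.1]
      have h8 := hsmall (t * (a + cexp s')) (t * w) (by rw [re_ofReal_mul]; positivity)
        (by rw [re_ofReal_mul]; positivity)
      refine h8.trans ?_
      apply mul_le_mul_of_nonneg_left _ hCε.le
      apply Real.exp_le_exp.2
      rw [norm_mul, norm_mul, norm_real, Real.norm_of_nonneg ht]
      have h9 : ‖a + cexp s'‖ ≤ ‖a‖ + R := (norm_add_le _ _).trans (by linarith)
      have h10 : ‖a + cexp s'‖ + ‖w‖ ≤ W := by rw [hW]; linarith
      have h11 : t * ‖a + cexp s'‖ + t * ‖w‖ ≤ W * t := by nlinarith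
      nlinarith
    set CC := (C + Cε) * Real.exp (max (-δ - κ * Real.log r₀) (ε * W - κ * Real.log R) * t) with hCC
    have hmain : ‖g s‖ ≤ CC := by
      refine strip_bound (a := Real.log r₀) (b := Real.log R)
        (D := Cε * Real.exp (ε * W * t) * Real.exp (-(κ * t) * Real.log r₀)) hgd ?_ ?_ ?_ ?_ ?_
      · intro s' h5 h6
        rw [hgn]
        apply mul_le_mul (hbig s' h6) _ (Real.exp_pos _).le (by positivity)
        apply Real.exp_le_exp.2
        have : 0 ≤ κ * t := by positivity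
        nlinarith
      · intro s' h5
        rw [hgn, h5]
        have h6 : ‖cexp s'‖ = r₀ := by rw [Complex.norm_exp, h5, Real.exp_log hr₀pos]
        have h7 := h t ht (a + cexp s') w (by rw [add_sub_cancel_left, h6]; exact hr₀r)
          (hw1.trans hr₀r)
        calc ‖f (t * (a + cexp s')) (t * w)‖ * Real.exp (-(κ * t) * Real.log r₀)
            ≤ (C * Real.exp (-δ * t)) * Real.exp (-(κ * t) * Real.log r₀) :=
              mul_le_mul_of_nonneg_right h7 (Real.exp_pos _).le
          _ = C * Real.exp ((-δ - κ * Real.log r₀) * t) := by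
              rw [mul_assoc, ← Real.exp_add]; ring_nf
          _ ≤ CC := by
              rw [hCC]
              apply mul_le_mul (by linarith) _ (Real.exp_pos _).le (by positivity)
              exact Real.exp_le_exp.2 (mul_le_mul_of_nonneg_right (le_max_left _ _) ht)
      · intro s' h5
        rw [hgn]
        calc ‖f (t * (a + cexp s')) (t * w)‖ * Real.exp (-(κ * t) * s'.re)
            ≤ (Cε * Real.exp (ε * W * t)) * Real.exp (-(κ * t) * s'.re) :=
              mul_le_mul_of_nonneg_right (hbig s' h5.le) (Real.exp_pos _).le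
          _ = Cε * Real.exp ((ε * W - κ * Real.log R) * t) := by
              rw [mul_assoc, ← Real.exp_add, h5]; ring_nf
          _ ≤ CC := by
              rw [hCC]
              apply mul_le_mul (by linarith) _ (Real.exp_pos _).le (by positivity)
              exact Real.exp_le_exp.2 (mul_le_mul_of_nonneg_right (le_max_right _ _) ht)
      · rw [hsre]; exact Real.log_le_log hr₀pos hcase.le
      · rw [hsre]; exact Real.log_le_log (hr₀pos.trans hcase) (hz1.trans h2.le)
    rw [hgn, hexps, add_sub_cancel] at hmain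
    have h5 : ‖f (t * z) (t * w)‖ ≤ CC * Real.exp (κ * t * s.re) := by
      calc ‖f (t * z) (t * w)‖ = ‖f (t * z) (t * w)‖ * Real.exp (-(κ * t) * s.re) *
            Real.exp (κ * t * s.re) := by
            rw [mul_assoc, ← Real.exp_add]; simp
        _ ≤ _ := mul_le_mul_of_nonneg_right hmain (Real.exp_pos _).le
    refine h5.trans ?_
    rw [hCC, mul_assoc, ← Real.exp_add]
    apply mul_le_mul_of_nonneg_left _ (by positivity)
    apply Real.exp_le_exp.2
    have h6 : s.re ≤ Real.log R₁ := by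
      rw [hsre]; exact Real.log_le_log (hr₀pos.trans hcase) hz1
    have h7 : κ * t * s.re ≤ κ * t * Real.log R₁ := mul_le_mul_of_nonneg_left h6 (by positivity)
    have h8 : max (-δ - κ * Real.log r₀) (ε * W - κ * Real.log R) + κ * Real.log R₁ ≤ -δ' := by
      have h9 : l₁ = Real.log R₁ - Real.log r₀ := Real.log_div hR₁0.ne' hr₀pos.ne'
      have h10 : l₂ = Real.log R - Real.log R₁ := Real.log_div (hR₁0.trans h2).ne' hR₁0.ne'
      have h11 : κ * l₁ = δ / 2 := by rw [hκ]; field_simp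
      have h12 : ε * W = κ * l₂ / 2 := by rw [hε]; field_simp
      have h13 : δ' ≤ δ / 2 := min_le_left _ _
      have h14 : δ' ≤ κ * l₂ / 2 := min_le_right _ _
      rw [← max_add_add_right]
      apply max_le
      · rw [h9] at h11; linarith
      · rw [h12]; rw [h10] at h14 ⊢; linarith
    nlinarith

theorem dec_chain {f : ℂ → ℂ → ℂ} (hf : GrowthData f) {a b a' : ℂ} (ha : 0 < a.re)
    (ha' : 0 < a'.re) (hb : 0 < b.re) (h : Dec f a b) : Dec f a' b := by
  set η := min a.re a'.re with hη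
  have hηpos : 0 < η := lt_min ha ha'
  obtain ⟨N, hN⟩ := exists_nat_gt (‖a' - a‖ / η)
  have hN0 : (0 : ℝ) < N := lt_of_le_of_lt (by positivity) hN
  have hstep : ∀ k : ℕ, k ≤ N → Dec f (a + ((k / N : ℝ) : ℂ) * (a' - a)) b := by
    intro k
    induction k with
    | zero => intro _; simpa using h
    | succ k ih =>
      intro hk
      apply dec_step hf hb (ih (by omega))
      have h1 : a + (((k + 1 : ℕ) / N : ℝ) : ℂ) * (a' - a) - (a + ((k / N : ℝ) : ℂ) * (a' - a)) =
          ((1 / N : ℝ) : ℂ) * (a' - a) := by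
        push_cast; ring
      rw [h1, norm_mul, norm_real, Real.norm_of_nonneg (by positivity)]
      have h2 : 1 / (N : ℝ) * ‖a' - a‖ < η := by
        rw [div_lt_iff₀ hηpos] at hN
        rw [one_div, inv_mul_lt_iff₀ hN0]
        exact hN
      refine lt_of_lt_of_le h2 ?_
      have h3 : (a + ((k / N : ℝ) : ℂ) * (a' - a)).re = (1 - k / N) * a.re + (k / N) * a'.re := by
        rw [add_re, re_ofReal_mul, sub_re]; ring
      rw [h3]
      have h4 : (0 : ℝ) ≤ k / N := by positivity
      have h5 : (k / N : ℝ) ≤ 1 := by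
        rw [div_le_one hN0]
        exact_mod_cast (by omega : k ≤ N)
      have h6 : η ≤ a.re := min_le_left _ _
      have h7 : η ≤ a'.re := min_le_right _ _
      nlinarith
  have := hstep N le_rfl
  rw [div_self hN0.ne'] at this
  simpa using this

theorem dec_one {f : ℂ → ℂ → ℂ} (hf : GrowthData f) {a b : ℂ} (ha : 0 < a.re)
    (hb : 0 < b.re) (h : Dec f a b) : Dec f 1 1 := by
  have h1 : Dec f 1 b := dec_chain hf ha (by simp) hb h
  have h2 := dec_chain hf.swap hb (by simp : 0 < (1 : ℂ).re) (by simp : 0 < (1 : ℂ).re) h1.swap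
  exact h2.swap

end Pool.Agent.MP_564bf3_an
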