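import Mathlib

/-!
# Exponentials and resolvents in the algebra of continuous functions
-/

open Complex Filter Set
open scoped Topology

noncomputable section

namespace Pool.Agent.MP_564bf3_an

variable {M : Type*} [TopologicalSpace M] [CompactSpace M]

/-- Evaluation as a ring homomorphism. -/
theorem exp_apply (a : C(M, ℂ)) (x : M) : (NormedSpace.exp a) x = cexp (a x) := by
  have h := NormedSpace.map_exp (ContinuousMap.evalAlgHom ℂ ℂ x)
    (continuous_eval_const x) a
  rw [Complex.exp_eq_exp_ℂ]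
  exact h

theorem norm_exp_le (a : C(M, ℂ)) {b : ℝ} (h : ∀ x, (a x).re ≤ b) :
    ‖NormedSpace.exp a‖ ≤ Real.exp b := by
  rw [ContinuousMap.norm_le _ (Real.exp_pos _).le]
  intro x
  rw [exp_apply, Complex.norm_exp]
  exact Real.exp_le_exp.2 (h x)

/-- A function tending to zero with exponentially small derivative. -/
theorem decay {φ φ' : ℝ → ℂ} {K η : ℝ} (hη : 0 < η) (hK : 0 ≤ K)
    (hd : ∀ t, HasDerivAt φ (φ' t) t) (hb : ∀ t, 0 ≤ t → ‖φ' t‖ ≤ K * Real.exp (-η * t))
    (h0 : Tendsto φ atTop (𝓝 0)) : ‖φ 0‖ ≤ K / η := by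
  have key : ∀ t, 0 ≤ t → ‖φ t - φ 0‖ ≤ K / η := by
    intro t ht
    have h1 : ‖φ t - φ 0‖ ≤ K / η * (1 - Real.exp (-η * t)) := by
      refine image_norm_le_of_norm_deriv_right_le_deriv_boundary' (a := 0) (b := t)
        (f := fun s => φ s - φ 0) (f' := φ')
        (B := fun s => K / η * (1 - Real.exp (-η * s))) (B' := fun s => K * Real.exp (-η * s))
        ?_ ?_ ?_ ?_ ?_ ?_ ⟨ht, le_rfl⟩
      · intro s _
        exact ((hd s).continuousAt.sub continuousAt_const).continuousWithinAt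
      · intro s _
        exact ((hd s).sub_const _).hasDerivWithinAt
      · simp
      · fun_prop
      · intro s _
        have h2 : HasDerivAt (fun s : ℝ => K / η * (1 - Real.exp (-η * s)))
            (K / η * (-(Real.exp (-η * s) * (-η * 1)))) s :=
          ((((hasDerivAt_id s).const_mul (-η)).exp.const_sub 1).const_mul _)
        refine (h2.congr_deriv ?_).hasDerivWithinAt
        field_simp
      · intro s hs
        exact hb s hs.1
    refine h1.trans ?_
    have h3 : 0 ≤ K / η := by positivity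
    nlinarith [Real.exp_pos (-η * t)]
  have h4 : Tendsto (fun t => ‖φ t - φ 0‖) atTop (𝓝 ‖(0 : ℂ) - φ 0‖) :=
    (h0.sub tendsto_const_nhds).norm
  rw [zero_sub, norm_neg] at h4
  refine le_of_tendsto h4 ?_
  filter_upwards [eventually_ge_atTop 0] with t ht using key t ht

/-- Laplace transform bound for the resolvent. -/
theorem laplace (Ψ : C(M, ℂ) →L[ℂ] ℂ) (X u : C(M, ℂ)) (w ω : ℂ)
    (hu : ∀ x, (w - X x) * u x = 1) (hω : ‖ω‖ ≤ 1) {D b β : ℝ} (hD : 0 ≤ D)
    (hb : ∀ t : ℝ, 0 ≤ t → ‖Ψ (NormedSpace.exp ((t * ω) • X))‖ ≤ D * Real.exp (b * t))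
    (h1 : b < (ω * w).re) (h2 : ∀ x, (ω * X x).re ≤ β) (h3 : β < (ω * w).re) :
    ‖Ψ u‖ ≤ D / ((ω * w).re - b) := by
  set Λ : C(M, ℂ) := ω • (X - w • (1 : C(M, ℂ))) with hΛ
  have hΛu : Λ * u = -(ω • (1 : C(M, ℂ))) := by
    ext x
    have := hu x
    simp only [hΛ, ContinuousMap.mul_apply, ContinuousMap.smul_apply, ContinuousMap.sub_apply,
      smul_eq_mul, mul_one, ContinuousMap.neg_apply, ContinuousMap.one_apply]
    linear_combination (-ω) * this
  have hexp : ∀ t : ℝ, NormedSpace.exp (t • Λ) =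
      cexp (-(t * (ω * w))) • NormedSpace.exp ((t * ω) • X) := by
    intro t
    ext x
    simp only [exp_apply, ContinuousMap.smul_apply, smul_eq_mul]
    rw [← Complex.exp_add]
    congr 1
    simp only [hΛ, ContinuousMap.smul_apply, ContinuousMap.sub_apply,
      ContinuousMap.one_apply, smul_eq_mul, mul_one, real_smul]
    ring
  have hnormc : ∀ t : ℝ, ‖cexp (-(t * (ω * w)))‖ = Real.exp (-(t * (ω * w).re)) := by
    intro t
    rw [Complex.norm_exp, neg_re, re_ofReal_mul]
  set φ : ℝ → ℂ := fun t => Ψ (NormedSpace.exp (t • Λ) * u) with hφ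
  set φ' : ℝ → ℂ := fun t => Ψ (NormedSpace.exp (t • Λ) * Λ * u) with hφ'
  have hd : ∀ t, HasDerivAt φ (φ' t) t := by
    intro t
    have h4 : HasDerivAt (fun t : ℝ => NormedSpace.exp (t • Λ) * u)
        (NormedSpace.exp (t • Λ) * Λ * u) t :=
      (hasDerivAt_exp_smul_const Λ t).mul_const u
    exact (Ψ.restrictScalars ℝ).hasFDerivAt.comp_hasDerivAt t h4
  have hφ0 : φ 0 = Ψ u := by simp [hφ]
  rw [← hφ0]
  refine decay (φ' := φ') (sub_pos.2 h1) hD hd ?_ ?_
  · intro t ht
    have h5 : φ' t = -(ω * (cexp (-(t * (ω * w))) * Ψ (NormedSpace.exp ((t * ω) • X)))) := by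
      simp only [hφ']
      rw [mul_assoc, hΛu, hexp]
      rw [mul_neg, mul_smul_comm, mul_one, map_neg, map_smul, map_smul, smul_eq_mul, smul_eq_mul]
    rw [h5, norm_neg, norm_mul, norm_mul, hnormc]
    calc ‖ω‖ * (Real.exp (-(t * (ω * w).re)) * ‖Ψ (NormedSpace.exp ((t * ω) • X))‖)
        ≤ 1 * (Real.exp (-(t * (ω * w).re)) * (D * Real.exp (b * t))) := by
          apply mul_le_mul hω _ (by positivity) zero_le_one
          exact mul_le_mul_of_nonneg_left (hb t ht) (Real.exp_pos _).le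
      _ = D * Real.exp (-((ω * w).re - b) * t) := by
          rw [one_mul, mul_left_comm, ← Real.exp_add]; ring_nf
  · have h6 : ∀ t : ℝ, 0 ≤ t → ‖φ t‖ ≤ ‖Ψ‖ * ‖u‖ * Real.exp (-((ω * w).re - β) * t) := by
      intro t ht
      have h7 : ‖NormedSpace.exp (t • Λ)‖ ≤ Real.exp (-((ω * w).re - β) * t) := by
        apply norm_exp_le
        intro x
        simp only [hΛ, ContinuousMap.smul_apply, ContinuousMap.sub_apply,
          ContinuousMap.one_apply, smul_eq_mul, mul_one, real_smul]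
        rw [re_ofReal_mul, mul_sub, sub_re]
        nlinarith [h2 x]
      calc ‖φ t‖ ≤ ‖Ψ‖ * ‖NormedSpace.exp (t • Λ) * u‖ := Ψ.le_opNorm _
        _ ≤ ‖Ψ‖ * (‖NormedSpace.exp (t • Λ)‖ * ‖u‖) :=
            mul_le_mul_of_nonneg_left (norm_mul_le _ _) (norm_nonneg _)
        _ ≤ ‖Ψ‖ * (Real.exp (-((ω * w).re - β) * t) * ‖u‖) :=
            mul_le_mul_of_nonneg_left (mul_le_mul_of_nonneg_right h7 (norm_nonneg _))
              (norm_nonneg _)
        _ = _ := by ring
    rw [tendsto_zero_iff_norm_tendsto_zero]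
    have h8 : Tendsto (fun t : ℝ => ‖Ψ‖ * ‖u‖ * Real.exp (-((ω * w).re - β) * t)) atTop
        (𝓝 (‖Ψ‖ * ‖u‖ * 0)) := by
      apply Tendsto.const_mul
      apply Real.tendsto_exp_atBot.comp
      exact tendsto_id.const_mul_atTop_of_neg (by linarith)
    rw [mul_zero] at h8
    refine squeeze_zero' (Eventually.of_forall fun _ => norm_nonneg _) ?_ h8
    filter_upwards [eventually_ge_atTop 0] with t ht using h6 t ht

end Pool.Agent.MP_564bf3_an
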